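import Mathlib

/-!
Weighted sums over connected spanning subgraphs, and the effect of adding one vertex.
-/

namespace Pool.Agent.MP_91840b_co

open Finset

section Defs

open scoped Classical in
/-- The weight of a spanning subgraph `H`: the product of the weights of its edges. -/
noncomputable def wt {V : Type*} [Fintype V] (w : Sym2 V → ℝ) (H : SimpleGraph V) : ℝ :=
  ∏ e ∈ Finset.univ.filter (fun e : Sym2 V => e ∈ H.edgeSet), w e

open scoped Classical in
/-- The sum of the weights of all connected spanning subgraphs. -/
noncomputable def Z {V : Type*} [Fintype V] (w : Sym2 V → ℝ) : ℝ :=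
  ∑ H : SimpleGraph V, if H.Connected then wt w H else 0

end Defs

/-- Add a new vertex `none`, joined to the vertices marked by `S`. -/
def ext {V : Type*} (H : SimpleGraph V) (S : V → Bool) : SimpleGraph (Option V) where
  Adj a b := match a, b with
    | none, none => False
    | none, some y => S y = true
    | some x, none => S x = true
    | some x, some y => H.Adj x y
  symm := ⟨by
    rintro (_ | x) (_ | y) h
    · exact h
    · exact h
    · exact h
    · exact H.adj_symm h⟩
  loopless := ⟨by
    rintro (_ | x) h
    · exact h
    · exact H.loopless.irrefl x h⟩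

@[simp] theorem ext_none_none {V : Type*} (H : SimpleGraph V) (S : V → Bool) :
    ¬ (ext H S).Adj none none := fun h => h

@[simp] theorem ext_none_some {V : Type*} (H : SimpleGraph V) (S : V → Bool) (y : V) :
    (ext H S).Adj none (some y) ↔ S y = true := Iff.rfl

@[simp] theorem ext_some_none {V : Type*} (H : SimpleGraph V) (S : V → Bool) (x : V) :
    (ext H S).Adj (some x) none ↔ S x = true := Iff.rfl

@[simp] theorem ext_some_some {V : Type*} (H : SimpleGraph V) (S : V → Bool) (x y : V) :
    (ext H S).Adj (some x) (some y) ↔ H.Adj x y := Iff.rfl

open scoped Classical in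
/-- Graphs on `Option V` are the same as graphs on `V` with a set of marked vertices. -/
noncomputable def extEquiv (V : Type*) : SimpleGraph V × (V → Bool) ≃ SimpleGraph (Option V) where
  toFun p := ext p.1 p.2
  invFun G := (G.comap some, fun x => decide (G.Adj none (some x)))
  left_inv := by
    rintro ⟨H, S⟩
    refine Prod.ext ?_ ?_
    · ext x y
      simp
    · funext x
      simp
  right_inv := by
    intro G
    ext a b
    rcases a with _ | a <;> rcases b with _ | b
    · simp
    · simp
    · simp [G.adj_comm]
    · simp

/-- `x` is reachable from a marked vertex. -/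
def Hit {V : Type*} (H : SimpleGraph V) (S : V → Bool) (x : V) : Prop :=
  ∃ t, S t = true ∧ H.Reachable t x

theorem Hit.trans {V : Type*} {H : SimpleGraph V} {S : V → Bool} {x y : V}
    (h : Hit H S x) (hxy : H.Reachable x y) : Hit H S y := by
  obtain ⟨t, ht, hr⟩ := h
  exact ⟨t, ht, hr.trans hxy⟩

/-- The reachability relation of `ext H S`, spelled out. -/
def ERel {V : Type*} (H : SimpleGraph V) (S : V → Bool) : Option V → Option V → Prop
  | none, none => True
  | none, some x => Hit H S x
  | some x, none => Hit H S x
  | some x, some y => H.Reachable x y ∨ (Hit H S x ∧ Hit H S y)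

theorem erel_step {V : Type*} (H : SimpleGraph V) (S : V → Bool) :
    ∀ a b c : Option V, (ext H S).Adj a b → ERel H S b c → ERel H S a c := by
  rintro (_ | a) (_ | b) (_ | c) hab hbc
  · trivial
  · exact absurd hab (by simp)
  · trivial
  · have hb : Hit H S b := ⟨b, hab, SimpleGraph.Reachable.refl b⟩
    rcases hbc with h | h
    · exact hb.trans h
    · exact h.2
  · exact ⟨a, hab, SimpleGraph.Reachable.refl a⟩
  · exact Or.inr ⟨⟨a, hab, SimpleGraph.Reachable.refl a⟩, hbc⟩
  · exact Hit.trans hbc (SimpleGraph.Adj.reachable (SimpleGraph.Adj.symm hab))
  · have hab' : H.Adj a b := hab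
    rcases hbc with h | h
    · exact Or.inl (hab'.reachable.trans h)
    · exact Or.inr ⟨h.1.trans (hab'.symm).reachable, h.2⟩

theorem erel_refl {V : Type*} (H : SimpleGraph V) (S : V → Bool) (a : Option V) : ERel H S a a := by
  rcases a with _ | a
  · trivial
  · exact Or.inl (SimpleGraph.Reachable.refl a)

theorem erel_of_reachable {V : Type*} (H : SimpleGraph V) (S : V → Bool) {a b : Option V}
    (h : (ext H S).Reachable a b) : ERel H S a b := by
  obtain ⟨p⟩ := h
  induction p with
  | nil => exact erel_refl H S _
  | cons hadj _ ih => exact erel_step H S _ _ _ hadj ih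

theorem reachable_some {V : Type*} (H : SimpleGraph V) (S : V → Bool) {x y : V}
    (h : H.Reachable x y) : (ext H S).Reachable (some x) (some y) := by
  let f : H →g ext H S := ⟨some, fun {a b} hab => hab⟩
  exact h.map f

theorem reachable_none {V : Type*} (H : SimpleGraph V) (S : V → Bool) {x : V}
    (h : Hit H S x) : (ext H S).Reachable none (some x) := by
  obtain ⟨t, ht, hr⟩ := h
  have h1 : (ext H S).Adj none (some t) := ht
  exact h1.reachable.trans (reachable_some H S hr)

theorem ext_reachable_none_some {V : Type*} (H : SimpleGraph V) (S : V → Bool) (x : V) :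
    (ext H S).Reachable none (some x) ↔ Hit H S x :=
  ⟨fun h => erel_of_reachable H S h, reachable_none H S⟩

theorem ext_reachable_some_some {V : Type*} (H : SimpleGraph V) (S : V → Bool) (x y : V) :
    (ext H S).Reachable (some x) (some y) ↔ H.Reachable x y ∨ (Hit H S x ∧ Hit H S y) := by
  constructor
  · exact fun h => erel_of_reachable H S h
  · rintro (h | ⟨h1, h2⟩)
    · exact reachable_some H S h
    · exact (reachable_none H S h1).symm.trans (reachable_none H S h2)

theorem ext_connected {V : Type*} (H : SimpleGraph V) (S : V → Bool) :
    (ext H S).Connected ↔ ∀ x, Hit H S x := by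
  constructor
  · intro h x
    exact (ext_reachable_none_some H S x).1 (h.preconnected none (some x))
  · intro h
    rw [SimpleGraph.connected_iff_exists_forall_reachable]
    refine ⟨none, ?_⟩
    rintro (_ | x)
    · exact SimpleGraph.Reachable.refl none
    · exact reachable_none H S (h x)

/-- Connectivity after adding two vertices. -/
theorem ext_ext_connected {V : Type*} (H : SimpleGraph V) (T : V → Bool) (S : Option V → Bool) :
    (ext (ext H T) S).Connected ↔
      (S none = true ∨ ∃ x, Hit H (fun y => S (some y)) x ∧ Hit H T x) ∧
        ∀ x, Hit H (fun y => S (some y)) x ∨ Hit H T x := by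
  rw [ext_connected]
  constructor
  · intro h
    constructor
    · obtain ⟨t, ht, hr⟩ := h none
      rcases t with _ | t
      · exact Or.inl ht
      · right
        have := (ext_reachable_none_some H T t).1 hr.symm
        exact ⟨t, ⟨t, ht, SimpleGraph.Reachable.refl t⟩, this⟩
    · intro x
      obtain ⟨t, ht, hr⟩ := h (some x)
      rcases t with _ | t
      · exact Or.inr ((ext_reachable_none_some H T x).1 hr)
      · rcases (ext_reachable_some_some H T t x).1 hr with h1 | h1
        · exact Or.inl ⟨t, ht, h1⟩
        · exact Or.inr h1.2
  · rintro ⟨h1, h2⟩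
    have hn : Hit (ext H T) S none := by
      rcases h1 with h1 | ⟨x, ⟨t, ht, htx⟩, hx⟩
      · exact ⟨none, h1, SimpleGraph.Reachable.refl none⟩
      · refine ⟨some t, ht, ?_⟩
        exact (reachable_some H T htx).trans (reachable_none H T hx).symm
    rintro (_ | x)
    · exact hn
    · rcases h2 x with ⟨t, ht, htx⟩ | h
      · exact ⟨some t, ht, reachable_some H T htx⟩
      · exact hn.trans (reachable_none H T h)

section Weights

open scoped Classical in
theorem wt_ext {V : Type*} [Fintype V] (w : Sym2 (Option V) → ℝ) (H : SimpleGraph V)
    (S : V → Bool) :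
    wt w (ext H S) = wt (fun e => w (e.map some)) H *
      ∏ x : V, if S x = true then w s(none, some x) else 1 := by
  unfold wt
  have hinj1 : Function.Injective (Sym2.map (some : V → Option V)) :=
    Sym2.map.injective (Option.some_injective V)
  have hinj2 : Function.Injective (fun x : V => (s(none, some x) : Sym2 (Option V))) := by
    intro a b hab
    simpa using hab
  have hset : Finset.univ.filter (fun e : Sym2 (Option V) => e ∈ (ext H S).edgeSet) =
      (Finset.univ.filter (fun e : Sym2 V => e ∈ H.edgeSet)).map ⟨_, hinj1⟩ ∪
      (Finset.univ.filter (fun x : V => S x = true)).map ⟨_, hinj2⟩ := by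
    ext e
    induction e using Sym2.ind with
    | _ a b =>
      simp only [Finset.mem_filter, Finset.mem_univ, true_and, SimpleGraph.mem_edgeSet,
        Finset.mem_union, Finset.mem_map, Function.Embedding.coeFn_mk]
      rcases a with _ | a <;> rcases b with _ | b
      · simp only [ext_none_none, false_iff, not_or, not_exists, not_and]
        constructor
        · intro x
          induction x using Sym2.ind with
          | _ x y => simp
        · intro x _
          simp
      · simp only [ext_none_some]
        constructor
        · intro h
          exact Or.inr ⟨b, h, rfl⟩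
        · rintro (⟨x, hx, hx2⟩ | ⟨x, hx, hx2⟩)
          · induction x using Sym2.ind with
            | _ x y => simp at hx2
          · have : x = b := by simpa using hx2
            rw [← this]; exact hx
      · simp only [ext_some_none]
        constructor
        · intro h
          exact Or.inr ⟨a, h, Sym2.eq_swap⟩
        · rintro (⟨x, hx, hx2⟩ | ⟨x, hx, hx2⟩)
          · induction x using Sym2.ind with
            | _ x y => simp at hx2
          · have : x = a := by simpa using hx2
            rw [← this]; exact hx
      · simp only [ext_some_some]
        constructor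
        · intro h
          exact Or.inl ⟨s(a, b), h, rfl⟩
        · rintro (⟨x, hx, hx2⟩ | ⟨x, hx, hx2⟩)
          · induction x using Sym2.ind with
            | _ x y =>
              simp only [Sym2.map_mk, Sym2.eq_iff, Option.some.injEq] at hx2
              rcases hx2 with ⟨h1, h2⟩ | ⟨h1, h2⟩
              · rw [← h1, ← h2]; exact hx
              · rw [← h1, ← h2]; exact H.adj_symm hx
          · simp at hx2
  have hdisj : Disjoint
      ((Finset.univ.filter (fun e : Sym2 V => e ∈ H.edgeSet)).map ⟨_, hinj1⟩)
      ((Finset.univ.filter (fun x : V => S x = true)).map ⟨_, hinj2⟩) := by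
    rw [Finset.disjoint_left]
    intro e he he2
    simp only [Finset.mem_map, Finset.mem_filter, Finset.mem_univ, true_and,
      Function.Embedding.coeFn_mk] at he he2
    obtain ⟨x, _, rfl⟩ := he
    obtain ⟨y, _, hy⟩ := he2
    induction x using Sym2.ind with
    | _ x z => simp at hy
  rw [hset, Finset.prod_union hdisj, Finset.prod_map, Finset.prod_map, Finset.prod_filter (s := (Finset.univ : Finset V))]
  rfl

end Weights

end Pool.Agent.MP_91840b_co
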