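import Mathlib

/-!
All-terminal reliability and the graphs `L_{n,m}`.
-/

namespace Pool.Agent.MP_91840b_co

/-- The number of edges of a graph. -/
noncomputable def edgeCount {V : Type*} (G : SimpleGraph V) : ℕ := G.edgeSet.ncard

open scoped Classical in
/-- The all-terminal reliability of `G` at edge probability `p`: the sum, over all connected
spanning subgraphs `H` of `G`, of the probability that `H` is exactly the graph of the operating
edges. -/
noncomputable def rel {V : Type*} [Fintype V] (G : SimpleGraph V) (p : ℝ) : ℝ :=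
  ∑ H : SimpleGraph V, if H ≤ G ∧ H.Connected then
    p ^ edgeCount H * (1 - p) ^ (edgeCount G - edgeCount H) else 0

/-- The graph `L_{n,m}` on the vertices `0, …, n-1`, where `m = s.choose 2 + k + (n - s - 1)`:
the vertices `0, …, s-1` form a complete graph, vertex `s` is joined to `0, …, k-1`, and each
vertex `j > s` is joined to the single earlier vertex `a j`. -/
def lgraph (n s k : ℕ) (a : ℕ → ℕ) : SimpleGraph (Fin n) :=
  SimpleGraph.fromRel fun i j : Fin n =>
    (i : ℕ) < j ∧ ((j : ℕ) < s ∨ ((j : ℕ) = s ∧ (i : ℕ) < k) ∨ (s < (j : ℕ) ∧ (i : ℕ) = a j))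

end Pool.Agent.MP_91840b_co
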