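import Mathlib
import Pool.Agent.Lib.MP_91840b_co.Core

/-!
Summation over the neighbourhood of an added vertex.
-/

namespace Pool.Agent.MP_91840b_co

open Finset

theorem sum_prod_bool {U : Type*} [Fintype U] [DecidableEq U] (α : U → ℝ) :
    ∑ S : U → Bool, ∏ x, (if S x = true then α x else 1) = ∏ x, (1 + α x) := by
  have h := Fintype.prod_sum (fun (x : U) (b : Bool) => if b = true then α x else 1)
  rw [← h]
  refine Finset.prod_congr rfl fun x _ => ?_
  simp [add_comm]

/-- Sum over subsets, weighted according to whether the subset is empty or not. -/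
theorem sum_one {U : Type*} [Fintype U] [DecidableEq U] (α : U → ℝ) (a b : ℝ) :
    ∑ S : U → Bool, (∏ x, (if S x = true then α x else 1)) *
      (if ∃ x, S x = true then b else a) = a + b * ((∏ x, (1 + α x)) - 1) := by
  have hz : ∀ S : U → Bool, (∏ x, (if S x = true then α x else 1)) *
      (if ∃ x, S x = true then b else a) =
      b * (∏ x, (if S x = true then α x else 1)) +
        (if S = (fun _ => false) then (a - b) else 0) := by
    intro S
    by_cases h : ∃ x, S x = true
    · rw [if_pos h]
      have : S ≠ (fun _ => false) := by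
        rintro rfl
        simp at h
      rw [if_neg this]
      ring
    · rw [if_neg h]
      have hS : S = (fun _ => false) := by
        funext x
        by_contra hx
        exact h ⟨x, by simpa using hx⟩
      rw [if_pos hS, hS]
      simp
  rw [Finset.sum_congr rfl (fun S _ => hz S), Finset.sum_add_distrib, ← Finset.mul_sum,
    sum_prod_bool]
  simp
  ring

/-- The fibrewise version of `sum_one`. -/
theorem sum_hit {U K : Type*} [Fintype U] [Fintype K] [DecidableEq U] [DecidableEq K]
    (κ : U → K) (α : U → ℝ) (ψ0 ψ1 : K → ℝ) :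
    ∑ S : U → Bool, (∏ x, (if S x = true then α x else 1)) *
      ∏ c, (if ∃ x, κ x = c ∧ S x = true then ψ1 c else ψ0 c) =
    ∏ c, (ψ0 c + ψ1 c * ((∏ x ∈ Finset.univ.filter (fun x => κ x = c), (1 + α x)) - 1)) := by
  have h1 : ∀ c, (ψ0 c + ψ1 c * ((∏ x ∈ Finset.univ.filter (fun x => κ x = c), (1 + α x)) - 1)) =
      ∑ τ : {x // κ x = c} → Bool, (∏ x, (if τ x = true then α x.1 else 1)) *
        (if ∃ x, τ x = true then ψ1 c else ψ0 c) := by
    intro c
    rw [sum_one (fun x : {x // κ x = c} => α x.1)]
    congr 3
    exact Finset.prod_subtype _ (by simp) _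
  rw [Finset.prod_congr rfl (fun c _ => h1 c), Fintype.prod_sum]
  let e : (U → Bool) ≃ (∀ c, {x // κ x = c} → Bool) :=
    { toFun := fun S c x => S x.1
      invFun := fun τ x => τ (κ x) ⟨x, rfl⟩
      left_inv := fun S => rfl
      right_inv := by
        intro τ
        funext c x
        obtain ⟨x, rfl⟩ := x
        rfl }
  refine Fintype.sum_equiv e _ _ ?_
  intro S
  rw [Finset.prod_mul_distrib]
  congr 1
  · exact (Fintype.prod_fiberwise κ (fun x => if S x = true then α x else 1)).symm
  · refine Finset.prod_congr rfl fun c _ => ?_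
    have : (∃ x, κ x = c ∧ S x = true) ↔ ∃ x, e S c x = true := by
      constructor
      · rintro ⟨x, hx, hS⟩
        exact ⟨⟨x, hx⟩, hS⟩
      · rintro ⟨x, hS⟩
        exact ⟨x.1, x.2, hS⟩
    by_cases h : ∃ x, κ x = c ∧ S x = true
    · rw [if_pos h, if_pos (this.1 h)]
    · rw [if_neg h, if_neg (fun h' => h (this.2 h'))]

section Comp

variable {V : Type*} [Fintype V]

open scoped Classical in
/-- The product of `1 + α x` over the vertices `x` of a connected component. -/
noncomputable def cp (H : SimpleGraph V) (α : V → ℝ) (c : H.ConnectedComponent) : ℝ :=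
  ∏ x ∈ Finset.univ.filter (fun x => H.connectedComponentMk x = c), (1 + α x)

omit [Fintype V] in
theorem hit_iff {H : SimpleGraph V} {S : V → Bool} {x : V} :
    Hit H S x ↔ ∃ t, H.connectedComponentMk t = H.connectedComponentMk x ∧ S t = true := by
  unfold Hit
  constructor
  · rintro ⟨t, ht, hr⟩
    exact ⟨t, SimpleGraph.ConnectedComponent.eq.2 hr, ht⟩
  · rintro ⟨t, hr, ht⟩
    exact ⟨t, ht, SimpleGraph.ConnectedComponent.eq.1 hr⟩

omit [Fintype V] in
theorem forall_hit_iff {H : SimpleGraph V} {S : V → Bool} :
    (∀ x, Hit H S x) ↔ ∀ c : H.ConnectedComponent,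
      ∃ t, H.connectedComponentMk t = c ∧ S t = true := by
  constructor
  · intro h c
    induction c using SimpleGraph.ConnectedComponent.ind with
    | _ x => exact hit_iff.1 (h x)
  · intro h x
    exact hit_iff.2 (h _)

open scoped Classical in
/-- One-vertex formula. -/
theorem Z_option (w : Sym2 (Option V) → ℝ) :
    Z w = ∑ H : SimpleGraph V, wt (fun e => w (e.map some)) H *
      ∏ c : H.ConnectedComponent, (cp H (fun x => w s(none, some x)) c - 1) := by
  have h0 : Z w = ∑ G : SimpleGraph (Option V), (if G.Connected then wt w G else 0) := by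
    unfold Z
    refine Finset.sum_congr ?_ fun G _ => ?_
    · ext G
      simp only [Finset.mem_univ]
    · split_ifs <;> rfl
  rw [h0, ← (extEquiv V).sum_comp, Fintype.sum_prod_type]
  refine Finset.sum_congr rfl fun H _ => ?_
  have hs := sum_hit (fun x => H.connectedComponentMk x) (fun x => w s(none, some x))
    (fun _ => 0) (fun _ => 1)
  have h2 : ∏ c : H.ConnectedComponent, (cp H (fun x => w s(none, some x)) c - 1) =
      ∏ c : H.ConnectedComponent, ((0 : ℝ) + 1 * ((∏ x ∈ Finset.univ.filter
        (fun x => H.connectedComponentMk x = c), (1 + w s(none, some x))) - 1)) := by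
    refine Finset.prod_congr rfl fun c _ => ?_
    rw [zero_add, one_mul]
    rfl
  rw [h2, ← hs, Finset.mul_sum]
  refine Finset.sum_congr rfl fun S _ => ?_
  rw [Finset.prod_ite_zero]
  have h3 : (ext H S).Connected ↔ ∀ c ∈ (Finset.univ : Finset H.ConnectedComponent),
      ∃ x, H.connectedComponentMk x = c ∧ S x = true := by
    rw [ext_connected, forall_hit_iff]
    simp
  show (if (ext H S).Connected then wt w (ext H S) else 0) = _
  by_cases hc : (ext H S).Connected
  · rw [if_pos hc, if_pos (h3.1 hc), wt_ext]
    simp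
  · rw [if_neg hc, if_neg (fun h => hc (h3.2 h))]
    ring

end Comp

end Pool.Agent.MP_91840b_co
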