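import Mathlib
import Pool.Agent.Lib.MP_91840b_co.Fiber

/-!
The two-vertex formula.
-/

namespace Pool.Agent.MP_91840b_co

open Finset

section Sums

variable {U K : Type*} [Fintype U] [Fintype K] [DecidableEq U] [DecidableEq K]

/-- The product over a fibre. -/
noncomputable def fp (κ : U → K) (α : U → ℝ) (c : K) : ℝ :=
  ∏ x ∈ Finset.univ.filter (fun x => κ x = c), (1 + α x)

theorem sum_two_or (κ : U → K) (α β : U → ℝ) :
    ∑ T : U → Bool, (∏ x, (if T x = true then β x else 1)) *
      ∑ S : U → Bool, (∏ x, (if S x = true then α x else 1)) *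
      ∏ c, (if (∃ x, κ x = c ∧ S x = true) ∨ (∃ x, κ x = c ∧ T x = true) then (1 : ℝ) else 0) =
    ∏ c, (fp κ α c * fp κ β c - 1) := by
  have h1 : ∀ T : U → Bool, ∑ S : U → Bool, (∏ x, (if S x = true then α x else 1)) *
      ∏ c, (if (∃ x, κ x = c ∧ S x = true) ∨ (∃ x, κ x = c ∧ T x = true)
        then (1 : ℝ) else 0) =
      ∏ c, (if ∃ x, κ x = c ∧ T x = true then fp κ α c else fp κ α c - 1) := by
    intro T
    have := sum_hit κ α (fun c => if ∃ x, κ x = c ∧ T x = true then (1 : ℝ) else 0) (fun _ => 1)
    calc _ = ∑ S : U → Bool, (∏ x, (if S x = true then α x else 1)) *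
          ∏ c, (if ∃ x, κ x = c ∧ S x = true then (1 : ℝ) else
            (if ∃ x, κ x = c ∧ T x = true then (1 : ℝ) else 0)) := by
          refine Finset.sum_congr rfl fun S _ => ?_
          congr 1
          refine Finset.prod_congr rfl fun c _ => ?_
          by_cases hs : ∃ x, κ x = c ∧ S x = true
          · rw [if_pos (Or.inl hs), if_pos hs]
          · by_cases ht : ∃ x, κ x = c ∧ T x = true
            · rw [if_pos (Or.inr ht), if_neg hs, if_pos ht]
            · rw [if_neg (not_or.2 ⟨hs, ht⟩), if_neg hs, if_neg ht]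
      _ = _ := this
      _ = _ := by
          refine Finset.prod_congr rfl fun c _ => ?_
          by_cases ht : ∃ x, κ x = c ∧ T x = true
          · rw [if_pos ht, if_pos ht]; unfold fp; ring
          · rw [if_neg ht, if_neg ht]; unfold fp; ring
  rw [Finset.sum_congr rfl (fun T _ => by rw [h1 T])]
  rw [sum_hit κ β (fun c => fp κ α c - 1) (fun c => fp κ α c)]
  refine Finset.prod_congr rfl fun c _ => ?_
  change fp κ α c - 1 + fp κ α c * (fp κ β c - 1) = _
  ring

theorem sum_two_xor (κ : U → K) (α β : U → ℝ) :
    ∑ T : U → Bool, (∏ x, (if T x = true then β x else 1)) *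
      ∑ S : U → Bool, (∏ x, (if S x = true then α x else 1)) *
      ∏ c, (if ((∃ x, κ x = c ∧ S x = true) ∨ (∃ x, κ x = c ∧ T x = true)) ∧
        ¬ ((∃ x, κ x = c ∧ S x = true) ∧ (∃ x, κ x = c ∧ T x = true)) then (1 : ℝ) else 0) =
    ∏ c, (fp κ α c + fp κ β c - 2) := by
  have h1 : ∀ T : U → Bool, ∑ S : U → Bool, (∏ x, (if S x = true then α x else 1)) *
      ∏ c, (if ((∃ x, κ x = c ∧ S x = true) ∨ (∃ x, κ x = c ∧ T x = true)) ∧
        ¬ ((∃ x, κ x = c ∧ S x = true) ∧ (∃ x, κ x = c ∧ T x = true)) then (1 : ℝ) else 0) =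
      ∏ c, (if ∃ x, κ x = c ∧ T x = true then 1 else fp κ α c - 1) := by
    intro T
    have := sum_hit κ α (fun c => if ∃ x, κ x = c ∧ T x = true then (1 : ℝ) else 0)
      (fun c => if ∃ x, κ x = c ∧ T x = true then (0 : ℝ) else 1)
    calc _ = ∑ S : U → Bool, (∏ x, (if S x = true then α x else 1)) *
          ∏ c, (if ∃ x, κ x = c ∧ S x = true then
            (if ∃ x, κ x = c ∧ T x = true then (0 : ℝ) else 1) else
            (if ∃ x, κ x = c ∧ T x = true then (1 : ℝ) else 0)) := by
          refine Finset.sum_congr rfl fun S _ => ?_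
          congr 1
          refine Finset.prod_congr rfl fun c _ => ?_
          by_cases hs : ∃ x, κ x = c ∧ S x = true
          · by_cases ht : ∃ x, κ x = c ∧ T x = true
            · rw [if_neg (fun h => h.2 ⟨hs, ht⟩), if_pos hs, if_pos ht]
            · rw [if_pos ⟨Or.inl hs, fun h => ht h.2⟩, if_pos hs, if_neg ht]
          · by_cases ht : ∃ x, κ x = c ∧ T x = true
            · rw [if_pos ⟨Or.inr ht, fun h => hs h.1⟩, if_neg hs, if_pos ht]
            · rw [if_neg (fun h => (not_or.2 ⟨hs, ht⟩) h.1), if_neg hs, if_neg ht]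
      _ = _ := this
      _ = _ := by
          refine Finset.prod_congr rfl fun c _ => ?_
          by_cases ht : ∃ x, κ x = c ∧ T x = true
          · rw [if_pos ht, if_pos ht, if_pos ht]; ring
          · rw [if_neg ht, if_neg ht, if_neg ht]; unfold fp; ring
  rw [Finset.sum_congr rfl (fun T _ => by rw [h1 T])]
  rw [sum_hit κ β (fun c => fp κ α c - 1) (fun _ => 1)]
  refine Finset.prod_congr rfl fun c _ => ?_
  change fp κ α c - 1 + 1 * (fp κ β c - 1) = _
  ring

end Sums

section Main

variable {V : Type*} [Fintype V]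

open scoped Classical in
/-- Two-vertex formula. -/
theorem Z_option_option (w : Sym2 (Option (Option V)) → ℝ) :
    Z w = ∑ H : SimpleGraph V, wt (fun e => w ((e.map some).map some)) H *
      ((1 + w s(none, some none)) * ∏ c : H.ConnectedComponent,
          (cp H (fun x => w s(none, some (some x))) c *
            cp H (fun x => w s(some none, some (some x))) c - 1) -
        ∏ c : H.ConnectedComponent,
          (cp H (fun x => w s(none, some (some x))) c +
            cp H (fun x => w s(some none, some (some x))) c - 2)) := by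
  have h0 : Z w = ∑ G : SimpleGraph (Option (Option V)),
      (if G.Connected then wt w G else 0) := by
    unfold Z
    refine Finset.sum_congr ?_ fun G _ => ?_
    · ext G
      simp only [Finset.mem_univ]
    · split_ifs <;> rfl
  rw [h0, ← (extEquiv (Option V)).sum_comp, Fintype.sum_prod_type,
    ← (extEquiv V).sum_comp, Fintype.sum_prod_type]
  refine Finset.sum_congr rfl fun H _ => ?_
  set α : V → ℝ := fun x => w s(none, some (some x)) with hα
  set β : V → ℝ := fun x => w s(some none, some (some x)) with hβ
  set ω : ℝ := w s(none, some none) with hω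
  set w0 : Sym2 V → ℝ := fun e => w ((e.map some).map some) with hw0
  have hor := sum_two_or (fun x => H.connectedComponentMk x) α β
  have hxor := sum_two_xor (fun x => H.connectedComponentMk x) α β
  have key : ∀ T : V → Bool, ∑ S : Option V → Bool,
      (if (ext (ext H T) S).Connected then wt w (ext (ext H T) S) else 0) =
      wt w0 H * ((1 + ω) * ((∏ x, (if T x = true then β x else 1)) *
      ∑ S : V → Bool, (∏ x, (if S x = true then α x else 1)) *
      ∏ c : H.ConnectedComponent, (if (∃ x, H.connectedComponentMk x = c ∧ S x = true) ∨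
        (∃ x, H.connectedComponentMk x = c ∧ T x = true) then (1 : ℝ) else 0)) -
      (∏ x, (if T x = true then β x else 1)) *
      ∑ S : V → Bool, (∏ x, (if S x = true then α x else 1)) *
      ∏ c : H.ConnectedComponent, (if ((∃ x, H.connectedComponentMk x = c ∧ S x = true) ∨
        (∃ x, H.connectedComponentMk x = c ∧ T x = true)) ∧
        ¬ ((∃ x, H.connectedComponentMk x = c ∧ S x = true) ∧
          (∃ x, H.connectedComponentMk x = c ∧ T x = true)) then (1 : ℝ) else 0)) := by
    intro T
    rw [← (Equiv.piOptionEquivProd (α := V) (β := fun _ => Bool)).symm.sum_comp,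
      Fintype.sum_prod_type, Fintype.sum_bool]
    rw [← Finset.sum_add_distrib, Finset.mul_sum, Finset.mul_sum, Finset.mul_sum,
      ← Finset.sum_sub_distrib, Finset.mul_sum]
    refine Finset.sum_congr rfl fun S _ => ?_
    have hwt : ∀ b : Bool, wt w (ext (ext H T)
        ((Equiv.piOptionEquivProd (α := V) (β := fun _ => Bool)).symm (b, S))) =
        wt w0 H * (∏ x, (if T x = true then β x else 1)) * ((if b = true then ω else 1) *
        ∏ x, (if S x = true then α x else 1)) := by
      intro b
      rw [wt_ext, wt_ext, Fintype.prod_option]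
      rfl
    have hcon : ∀ b : Bool, (ext (ext H T)
        ((Equiv.piOptionEquivProd (α := V) (β := fun _ => Bool)).symm (b, S))).Connected ↔
        ((b = true ∨ ∃ x, Hit H S x ∧ Hit H T x) ∧ ∀ x, Hit H S x ∨ Hit H T x) := by
      intro b
      exact ext_ext_connected H T _
    rw [Finset.prod_ite_zero, Finset.prod_ite_zero]
    have hA : (∀ x, Hit H S x ∨ Hit H T x) ↔ ∀ c ∈ (Finset.univ : Finset H.ConnectedComponent),
        (∃ x, H.connectedComponentMk x = c ∧ S x = true) ∨
        (∃ x, H.connectedComponentMk x = c ∧ T x = true) := by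
      constructor
      · intro h c _
        induction c using SimpleGraph.ConnectedComponent.ind with
        | _ x => exact (h x).imp hit_iff.1 hit_iff.1
      · intro h x
        exact (h _ (Finset.mem_univ _)).imp hit_iff.2 hit_iff.2
    have hB : (∃ x, Hit H S x ∧ Hit H T x) ↔ ∃ c : H.ConnectedComponent,
        ((∃ x, H.connectedComponentMk x = c ∧ S x = true) ∧
        (∃ x, H.connectedComponentMk x = c ∧ T x = true)) := by
      constructor
      · rintro ⟨x, h1, h2⟩
        exact ⟨_, hit_iff.1 h1, hit_iff.1 h2⟩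
      · rintro ⟨c, h1, h2⟩
        induction c using SimpleGraph.ConnectedComponent.ind with
        | _ x => exact ⟨x, hit_iff.2 h1, hit_iff.2 h2⟩
    have hAB : (∀ c ∈ (Finset.univ : Finset H.ConnectedComponent),
        ((∃ x, H.connectedComponentMk x = c ∧ S x = true) ∨
        (∃ x, H.connectedComponentMk x = c ∧ T x = true)) ∧
        ¬ ((∃ x, H.connectedComponentMk x = c ∧ S x = true) ∧
          (∃ x, H.connectedComponentMk x = c ∧ T x = true))) ↔
        ((∀ x, Hit H S x ∨ Hit H T x) ∧ ¬ ∃ x, Hit H S x ∧ Hit H T x) := by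
      rw [hA, hB]
      constructor
      · intro h
        refine ⟨fun c hc => (h c hc).1, ?_⟩
        rintro ⟨c, hc⟩
        exact (h c (Finset.mem_univ _)).2 hc
      · rintro ⟨h1, h2⟩ c hc
        exact ⟨h1 c hc, fun h => h2 ⟨c, h⟩⟩
    show (if (ext (ext H T) ((Equiv.piOptionEquivProd (α := V)
        (β := fun _ => Bool)).symm (true, S))).Connected then _ else 0) +
      (if (ext (ext H T) ((Equiv.piOptionEquivProd (α := V)
        (β := fun _ => Bool)).symm (false, S))).Connected then _ else 0) = _
    rw [hwt, hwt]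
    by_cases a1 : ∀ x, Hit H S x ∨ Hit H T x
    · have a1' := hA.1 a1
      rw [if_pos ((hcon true).2 ⟨Or.inl rfl, a1⟩), if_pos a1']
      by_cases a2 : ∃ x, Hit H S x ∧ Hit H T x
      · rw [if_pos ((hcon false).2 ⟨Or.inr a2, a1⟩), if_neg (fun h => (hAB.1 h).2 a2)]
        simp
        ring
      · have hneg : ¬ (ext (ext H T) ((Equiv.piOptionEquivProd (α := V)
            (β := fun _ => Bool)).symm (false, S))).Connected := by
          intro h
          rcases ((hcon false).1 h).1 with h' | h'
          · exact absurd h' (by simp)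
          · exact a2 h'
        rw [if_neg hneg, if_pos (hAB.2 ⟨a1, a2⟩)]
        simp
        ring
    · rw [if_neg (fun h => a1 ((hcon true).1 h).2), if_neg (fun h => a1 ((hcon false).1 h).2),
        if_neg (fun h => a1 (hA.2 h)), if_neg (fun h => a1 (hAB.1 h).1)]
      ring
  have hsum := Finset.sum_congr (s₁ := (Finset.univ : Finset (V → Bool))) rfl
    (fun T _ => key T)
  refine hsum.trans ?_
  rw [← Finset.mul_sum, Finset.sum_sub_distrib, ← Finset.mul_sum, hor, hxor]
  rfl

end Main

end Pool.Agent.MP_91840b_co
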