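import Mathlib
import Pool.Agent.Lib.MP_91840b_co.Two

/-!
Monotonicity statements for the weighted sum `Z`.
-/

namespace Pool.Agent.MP_91840b_co

open Finset

section Basic

universe u

variable {V : Type u} {V' : Type*} [Fintype V] [Fintype V']

theorem wt_equiv (e : V ≃ V') (w : Sym2 V' → ℝ) (H : SimpleGraph V) :
    wt (fun s => w (s.map e)) H = wt w (e.simpleGraph H) := by
  classical
  unfold wt
  refine Finset.prod_bij (fun s _ => s.map e) ?_ ?_ ?_ ?_
  · intro s hs
    simp only [Finset.mem_filter, Finset.mem_univ, true_and] at hs ⊢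
    induction s using Sym2.ind with
    | _ x y =>
      simpa [Equiv.simpleGraph] using hs
  · intro a _ b _ hab
    exact Sym2.map.injective e.injective hab
  · intro s hs
    simp only [Finset.mem_filter, Finset.mem_univ, true_and] at hs
    refine ⟨s.map e.symm, ?_, ?_⟩
    · simp only [Finset.mem_filter, Finset.mem_univ, true_and]
      induction s using Sym2.ind with
      | _ x y =>
        simpa [Equiv.simpleGraph] using hs
    · rw [Sym2.map_map]
      simp
  · intro s _
    rfl

theorem Z_equiv (e : V ≃ V') (w : Sym2 V' → ℝ) :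
    Z (fun s => w (s.map e)) = Z w := by
  classical
  unfold Z
  refine Fintype.sum_equiv e.simpleGraph _ _ ?_
  intro H
  have hc : H.Connected ↔ (e.simpleGraph H).Connected := by
    have iso : H ≃g e.simpleGraph H :=
      ⟨e, by intro a b; simp [Equiv.simpleGraph]⟩
    exact iso.connected_iff
  by_cases h : H.Connected
  · rw [if_pos h, if_pos (hc.1 h), wt_equiv]
  · rw [if_neg h, if_neg (fun h' => h (hc.2 h'))]

theorem wt_nonneg {w : Sym2 V → ℝ} (hw : ∀ e, 0 ≤ w e) (H : SimpleGraph V) : 0 ≤ wt w H := by
  classical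
  unfold wt
  exact Finset.prod_nonneg fun e _ => hw e

theorem Z_nonneg {w : Sym2 V → ℝ} (hw : ∀ e, 0 ≤ w e) : 0 ≤ Z w := by
  classical
  unfold Z
  refine Finset.sum_nonneg fun H _ => ?_
  split_ifs
  · exact wt_nonneg hw H
  · exact le_refl 0

theorem wt_congr {w w' : Sym2 V → ℝ} (h : ∀ x y, x ≠ y → w s(x, y) = w' s(x, y))
    (H : SimpleGraph V) : wt w H = wt w' H := by
  classical
  unfold wt
  refine Finset.prod_congr rfl fun e he => ?_
  simp only [Finset.mem_filter, Finset.mem_univ, true_and] at he
  induction e using Sym2.ind with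
  | _ x y => exact h x y (SimpleGraph.Adj.ne he)

theorem Z_congr {w w' : Sym2 V → ℝ} (h : ∀ x y, x ≠ y → w s(x, y) = w' s(x, y)) :
    Z w = Z w' := by
  classical
  unfold Z
  refine Finset.sum_congr rfl fun H _ => ?_
  rw [wt_congr h]

theorem cp_ge_one {α : V → ℝ} (hα : ∀ x, 0 ≤ α x) (H : SimpleGraph V)
    (c : H.ConnectedComponent) : 1 ≤ cp H α c := by
  classical
  unfold cp
  have h1 : (1 : ℝ) = ∏ x ∈ Finset.univ.filter (fun x => H.connectedComponentMk x = c), 1 := by
    simp
  rw [h1]
  exact Finset.prod_le_prod (fun x _ => zero_le_one) fun x _ => by have := hα x; linarith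

theorem cp_mono {α β : V → ℝ} (hα : ∀ x, 0 ≤ α x) (h : ∀ x, α x ≤ β x) (H : SimpleGraph V)
    (c : H.ConnectedComponent) : cp H α c ≤ cp H β c := by
  classical
  unfold cp
  refine Finset.prod_le_prod (fun x _ => by have := hα x; linarith) fun x _ => ?_
  have := h x
  linarith

theorem cp_mul {α β γ : V → ℝ} (h : ∀ x, (1 + α x) * (1 + β x) = 1 + γ x) (H : SimpleGraph V)
    (c : H.ConnectedComponent) : cp H α c * cp H β c = cp H γ c := by
  classical
  unfold cp
  rw [← Finset.prod_mul_distrib]
  exact Finset.prod_congr rfl fun x _ => h x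

theorem exists_equiv_one (p : V) : ∃ (U : Type u) (_ : Fintype U) (e : Option U ≃ V),
    e none = p := by
  classical
  exact ⟨{x : V // x ≠ p}, inferInstance, Equiv.optionSubtypeNe p, rfl⟩

theorem exists_equiv_two (p q : V) (h : p ≠ q) :
    ∃ (U : Type u) (_ : Fintype U) (e : Option (Option U) ≃ V),
    e none = p ∧ e (some none) = q := by
  classical
  obtain ⟨U, hU, e, he⟩ := exists_equiv_one (V := {x : V // x ≠ p}) ⟨q, h.symm⟩
  refine ⟨U, hU, (Equiv.optionCongr e).trans (Equiv.optionSubtypeNe p), rfl, ?_⟩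
  simp [he]

theorem two_real {a b a' b' : ℝ} (ha : 1 ≤ a) (_hb : 1 ≤ b) (h : a' * b' = a * b)
    (h1 : a ≤ a') (h2 : b ≤ a') : a + b ≤ a' + b' := by
  have ha' : 0 < a' := by linarith
  have : 0 ≤ (a' - a) * (a' - b) := mul_nonneg (by linarith) (by linarith)
  have h3 : a' * (a + b) ≤ a' * (a' + b') := by nlinarith
  exact le_of_mul_le_mul_left h3 ha'

/-- The weighted compression inequality, for the two added vertices. -/
theorem kelmans_option (w w' : Sym2 (Option (Option V)) → ℝ) (hw : ∀ e, 0 ≤ w e)
    (hw' : ∀ e, 0 ≤ w' e)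
    (hsame : ∀ x y : V, w' s(some (some x), some (some y)) = w s(some (some x), some (some y)))
    (hpq : w' s(none, some none) = w s(none, some none))
    (hprod : ∀ x : V, (1 + w' s(none, some (some x))) * (1 + w' s(some none, some (some x))) =
      (1 + w s(none, some (some x))) * (1 + w s(some none, some (some x))))
    (h1 : ∀ x : V, w s(none, some (some x)) ≤ w' s(none, some (some x)))
    (h2 : ∀ x : V, w s(some none, some (some x)) ≤ w' s(none, some (some x))) :
    Z w' ≤ Z w := by
  classical
  rw [Z_option_option, Z_option_option]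
  refine Finset.sum_le_sum fun H _ => ?_
  have hwt : wt (fun e => w' ((e.map some).map some)) H =
      wt (fun e => w ((e.map some).map some)) H := by
    refine wt_congr (fun x y _ => ?_) H
    exact hsame x y
  rw [hwt, hpq]
  refine mul_le_mul_of_nonneg_left ?_ (wt_nonneg (fun e => hw _) H)
  have hp : ∀ c : H.ConnectedComponent,
      cp H (fun x => w' s(none, some (some x))) c *
        cp H (fun x => w' s(some none, some (some x))) c =
      cp H (fun x => w s(none, some (some x))) c *
        cp H (fun x => w s(some none, some (some x))) c := by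
    intro c
    rw [cp_mul (γ := fun x => (1 + w s(none, some (some x))) *
        (1 + w s(some none, some (some x))) - 1) (fun x => by rw [hprod x]; ring) H c,
      cp_mul (γ := fun x => (1 + w s(none, some (some x))) *
        (1 + w s(some none, some (some x))) - 1) (fun x => by ring) H c]
  rw [Finset.prod_congr rfl (fun c _ => by rw [hp c])]
  refine sub_le_sub_left ?_ _
  refine Finset.prod_le_prod (fun c _ => ?_) (fun c _ => ?_)
  · have a1 := cp_ge_one (α := fun x => w s(none, some (some x))) (fun x => hw _) H c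
    have a2 := cp_ge_one (α := fun x => w s(some none, some (some x))) (fun x => hw _) H c
    linarith
  · have a1 := cp_ge_one (α := fun x => w s(none, some (some x))) (fun x => hw _) H c
    have a2 := cp_ge_one (α := fun x => w s(some none, some (some x))) (fun x => hw _) H c
    have := two_real a1 a2 (hp c) (cp_mono (fun x => hw _) h1 H c)
      (cp_mono (fun x => hw _) h2 H c)
    linarith

/-- The weighted compression inequality. -/
theorem kelmans (p q : V) (hne : p ≠ q) (w w' : Sym2 V → ℝ) (hw : ∀ e, 0 ≤ w e)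
    (hw' : ∀ e, 0 ≤ w' e)
    (hsame : ∀ x y, x ≠ p → x ≠ q → y ≠ p → y ≠ q → x ≠ y → w' s(x, y) = w s(x, y))
    (hpq : w' s(p, q) = w s(p, q))
    (hprod : ∀ x, x ≠ p → x ≠ q →
      (1 + w' s(p, x)) * (1 + w' s(q, x)) = (1 + w s(p, x)) * (1 + w s(q, x)))
    (h1 : ∀ x, x ≠ p → x ≠ q → w s(p, x) ≤ w' s(p, x))
    (h2 : ∀ x, x ≠ p → x ≠ q → w s(q, x) ≤ w' s(p, x)) :
    Z w' ≤ Z w := by
  obtain ⟨U, hU, e, hp, hq⟩ := exists_equiv_two p q hne
  have hxp : ∀ x : U, e (some (some x)) ≠ p := by
    intro x h
    rw [← hp] at h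
    exact absurd (e.injective h) (by simp)
  have hxq : ∀ x : U, e (some (some x)) ≠ q := by
    intro x h
    rw [← hq] at h
    exact absurd (e.injective h) (by simp)
  -- replace the weights on the diagonal by zero
  classical
  let c : (Sym2 V → ℝ) → Sym2 V → ℝ := fun v s => if s.IsDiag then 0 else v s
  have hc : ∀ v, Z v = Z (c v) := by
    intro v
    refine Z_congr fun x y hxy => ?_
    simp [c, hxy]
  rw [hc w, hc w', ← Z_equiv e (c w), ← Z_equiv e (c w')]
  refine kelmans_option _ _ ?_ ?_ ?_ ?_ ?_ ?_ ?_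
  · intro s
    simp only [c]
    split_ifs
    · exact le_refl 0
    · exact hw _
  · intro s
    simp only [c]
    split_ifs
    · exact le_refl 0
    · exact hw' _
  · intro x y
    simp only [c, Sym2.map_mk, Sym2.mk_isDiag_iff]
    split_ifs with h
    · rfl
    · exact hsame _ _ (hxp x) (hxq x) (hxp y) (hxq y) h
  · simp only [c, Sym2.map_mk, Sym2.mk_isDiag_iff, hp, hq, if_neg hne]
    exact hpq
  · intro x
    simp only [c, Sym2.map_mk, Sym2.mk_isDiag_iff, hp, hq, if_neg (hxp x).symm,
      if_neg (hxq x).symm]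
    exact hprod _ (hxp x) (hxq x)
  · intro x
    simp only [c, Sym2.map_mk, Sym2.mk_isDiag_iff, hp, if_neg (hxp x).symm]
    exact h1 _ (hxp x) (hxq x)
  · intro x
    simp only [c, Sym2.map_mk, Sym2.mk_isDiag_iff, hp, hq, if_neg (hxp x).symm,
      if_neg (hxq x).symm]
    exact h2 _ (hxp x) (hxq x)

end Basic

end Pool.Agent.MP_91840b_co
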