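import Mathlib
import Pool.Agent.Lib.MP_91840b_co.Ineq

/-!
Adding a vertex, contraction, and the bound for adding an edge.
-/

namespace Pool.Agent.MP_91840b_co

open Finset

universe u

variable {V : Type u} [Fintype V]

open scoped Classical in
theorem prod_comp_connected {H : SimpleGraph V} (hc : H.Connected) (α : V → ℝ) :
    ∏ c : H.ConnectedComponent, (cp H α c - 1) = (∏ x, (1 + α x)) - 1 := by
  obtain ⟨x0⟩ := hc.nonempty
  have hsub : ∀ c : H.ConnectedComponent, c = H.connectedComponentMk x0 := by
    intro c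
    induction c using SimpleGraph.ConnectedComponent.ind with
    | _ x => exact SimpleGraph.ConnectedComponent.eq.2 (hc.preconnected x x0)
  rw [Finset.prod_eq_single (H.connectedComponentMk x0) (fun c _ hc => absurd (hsub c) hc)
    (fun h => absurd (Finset.mem_univ _) h)]
  unfold cp
  congr 1
  refine Finset.prod_congr ?_ fun _ _ => rfl
  ext x
  simpa using hc.preconnected x x0

theorem add_vertex (w : Sym2 (Option V) → ℝ) (hw : ∀ e, 0 ≤ w e) :
    ((∏ x, (1 + w s(none, some x))) - 1) * Z (fun e => w (e.map some)) ≤ Z w := by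
  classical
  rw [Z_option, Z, Finset.mul_sum]
  refine Finset.sum_le_sum fun H _ => ?_
  split_ifs with hc
  · rw [prod_comp_connected hc, mul_comm]
  · rw [mul_zero]
    refine mul_nonneg (wt_nonneg (fun e => hw _) H) (Finset.prod_nonneg fun c _ => ?_)
    have := cp_ge_one (α := fun x => w s(none, some x)) (fun x => hw _) H c
    linarith

theorem add_pendant (w : Sym2 (Option V) → ℝ) (x0 : V)
    (h0 : ∀ x, x ≠ x0 → w s(none, some x) = 0) :
    Z w = w s(none, some x0) * Z (fun e => w (e.map some)) := by
  classical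
  rw [Z_option, Z, Finset.mul_sum]
  refine Finset.sum_congr rfl fun H _ => ?_
  split_ifs with hc
  · rw [prod_comp_connected hc]
    have : ∏ x, (1 + w s(none, some x)) = 1 + w s(none, some x0) := by
      rw [Finset.prod_eq_single x0]
      · intro b _ hb
        rw [h0 b hb, add_zero]
      · intro h
        exact absurd (Finset.mem_univ _) h
    rw [this]
    ring
  · rw [mul_zero]
    have : ∃ c : H.ConnectedComponent, c ≠ H.connectedComponentMk x0 := by
      by_contra hcon
      push Not at hcon
      apply hc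
      have : Nonempty V := ⟨x0⟩
      refine ⟨fun x y => ?_⟩
      have hx := hcon (H.connectedComponentMk x)
      have hy := hcon (H.connectedComponentMk y)
      exact (SimpleGraph.ConnectedComponent.eq.1 hx).trans
        (SimpleGraph.ConnectedComponent.eq.1 hy).symm
    obtain ⟨c, hcne⟩ := this
    rw [Finset.prod_eq_zero (Finset.mem_univ c), mul_zero]
    unfold cp
    rw [Finset.prod_eq_one, sub_self]
    intro x hx
    rw [Finset.mem_filter] at hx
    have : w s(none, some x) = 0 := by
      apply h0
      rintro rfl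
      exact hcne hx.2.symm
    simp [this]

/-- Deletion and contraction of an edge at the new vertex, on `Option (Option V)`. -/
theorem contract_option (w : Sym2 (Option (Option V)) → ℝ) (μ : Sym2 (Option V) → ℝ)
    (hμ1 : ∀ x y : V, μ s(some x, some y) = w s(some (some x), some (some y)))
    (hμ2 : ∀ x : V, 1 + μ s(none, some x) =
      (1 + w s(none, some (some x))) * (1 + w s(some none, some (some x))))
    (w' : Sym2 (Option (Option V)) → ℝ) (z : ℝ)
    (h0 : w s(none, some none) = 0) (h1 : w' s(none, some none) = z)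
    (h2 : ∀ s, s ≠ s(none, some none) → w' s = w s) :
    Z w' = Z w + z * Z μ := by
  classical
  rw [Z_option_option, Z_option_option, Z_option, h0, h1, Finset.mul_sum,
    ← Finset.sum_add_distrib]
  refine Finset.sum_congr rfl fun H _ => ?_
  have e1 : wt (fun e => w' ((e.map some).map some)) H =
      wt (fun e => w ((e.map some).map some)) H := by
    refine wt_congr (fun x y _ => ?_) H
    simp only [Sym2.map_mk]
    exact h2 _ (by simp)
  have e2 : wt (fun e => μ (e.map some)) H =
      wt (fun e => w ((e.map some).map some)) H := by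
    refine wt_congr (fun x y _ => ?_) H
    simp only [Sym2.map_mk]
    exact hμ1 x y
  have e3 : ∀ x : V, w' s(none, some (some x)) = w s(none, some (some x)) := by
    intro x
    exact h2 _ (by simp)
  have e4 : ∀ x : V, w' s(some none, some (some x)) = w s(some none, some (some x)) := by
    intro x
    exact h2 _ (by simp)
  simp only [e1, e2, e3, e4]
  have e5 : ∀ c : H.ConnectedComponent, cp H (fun x => μ s(none, some x)) c =
      cp H (fun x => w s(none, some (some x))) c *
      cp H (fun x => w s(some none, some (some x))) c := by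
    intro c
    rw [cp_mul (γ := fun x => μ s(none, some x)) (fun x => (hμ2 x).symm)]
  simp only [e5]
  ring

/-- Deletion and contraction of an edge at the new vertex. -/
theorem contract (q : V) (w w' : Sym2 (Option V) → ℝ) (μ : Sym2 V → ℝ)
    (hμ1 : ∀ x y : V, x ≠ q → y ≠ q → x ≠ y → μ s(x, y) = w s(some x, some y))
    (hμ2 : ∀ x : V, x ≠ q → 1 + μ s(q, x) =
      (1 + w s(none, some x)) * (1 + w s(some q, some x)))
    (z : ℝ) (h0 : w s(none, some q) = 0) (h1 : w' s(none, some q) = z)
    (h2 : ∀ s, s ≠ s(none, some q) → w' s = w s) :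
    Z w' = Z w + z * Z μ := by
  classical
  obtain ⟨U, hU, e, he⟩ := exists_equiv_one q
  have hx : ∀ x : U, e (some x) ≠ q := by
    intro x h
    rw [← he] at h
    exact absurd (e.injective h) (by simp)
  let c : (Sym2 V → ℝ) → Sym2 V → ℝ := fun v s => if s.IsDiag then 0 else v s
  let d : (Sym2 (Option V) → ℝ) → Sym2 (Option V) → ℝ := fun v s => if s.IsDiag then 0 else v s
  have hc : ∀ v, Z v = Z (c v) := by
    intro v
    refine Z_congr fun x y hxy => ?_
    simp [c, hxy]
  have hd : ∀ v, Z v = Z (d v) := by
    intro v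
    refine Z_congr fun x y hxy => ?_
    simp [d, hxy]
  rw [hd w, hd w', hc μ, ← Z_equiv (Equiv.optionCongr e) (d w),
    ← Z_equiv (Equiv.optionCongr e) (d w'), ← Z_equiv e (c μ)]
  refine contract_option _ _ ?_ ?_ _ _ ?_ ?_ ?_
  · intro x y
    simp only [c, d, Sym2.map_mk, Sym2.mk_isDiag_iff, Equiv.optionCongr_apply, Option.map_some,
      Option.some.injEq]
    split_ifs with h
    · rfl
    · exact hμ1 _ _ (hx x) (hx y) h
  · intro x
    simp only [c, d, Sym2.map_mk, Sym2.mk_isDiag_iff, Equiv.optionCongr_apply, Option.map_some,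
      Option.some.injEq, Option.map_none, he, if_neg (hx x).symm, reduceCtorEq, if_false]
    exact hμ2 _ (hx x)
  · simp only [d, Sym2.map_mk, Sym2.mk_isDiag_iff, Equiv.optionCongr_apply, Option.map_some,
      Option.map_none, he, reduceCtorEq, if_false]
    exact h0
  · simp only [d, Sym2.map_mk, Sym2.mk_isDiag_iff, Equiv.optionCongr_apply, Option.map_some,
      Option.map_none, he, reduceCtorEq, if_false]
    exact h1
  · intro s hs
    have hs' : s.map (Equiv.optionCongr e) ≠ s(none, some q) := by
      intro h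
      apply hs
      apply Sym2.map.injective (Equiv.optionCongr e).injective
      rw [h]
      simp [he]
    simp only [d]
    rw [h2 _ hs']

theorem comp_real {z : ℝ} (hz : 0 < z) (s : ℕ) {a b : ℝ} (ha : (1 + z) ^ s ≤ a)
    (hb : (1 + z) ^ s ≤ b) : a + b - 2 ≤ (2 / (2 + z)) ^ s * (a * b - 1) := by
  have hY : (1 : ℝ) ≤ (1 + z) ^ s := one_le_pow₀ (by linarith)
  rcases Nat.eq_zero_or_pos s with rfl | hs
  · simp only [pow_zero, one_mul] at *
    nlinarith
  · have h1 : (2 + z) ^ s ≤ 2 ^ (s - 1) * (1 + (1 + z) ^ s) := by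
      have := add_pow_le (a := (1 : ℝ)) (b := 1 + z) zero_le_one (by linarith) s
      rw [one_pow] at this
      calc (2 + z) ^ s = (1 + (1 + z)) ^ s := by ring
        _ ≤ _ := this
    have h2 : (2 : ℝ) ^ s = 2 * 2 ^ (s - 1) := by
      rw [← pow_succ', Nat.sub_add_cancel hs]
    have hpos : 0 < (2 + z) ^ s := by positivity
    have hab : 0 ≤ a * b - 1 := by nlinarith
    rw [div_pow, div_mul_eq_mul_div, le_div_iff₀ hpos, h2]
    have hab2 : 0 ≤ a + b - 2 := by linarith
    have h3 : (a + b - 2) * ((1 + z) ^ s + 1) ≤ 2 * (a * b - 1) := by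
      nlinarith [mul_nonneg (sub_nonneg.2 ha) (sub_nonneg.2 hb),
        mul_nonneg (sub_nonneg.2 hY) (sub_nonneg.2 ha),
        mul_nonneg (sub_nonneg.2 hY) (sub_nonneg.2 hb)]
    have h4 : (0 : ℝ) < 2 ^ (s - 1) := by positivity
    calc (a + b - 2) * (2 + z) ^ s ≤ (a + b - 2) * (2 ^ (s - 1) * (1 + (1 + z) ^ s)) :=
          mul_le_mul_of_nonneg_left h1 hab2
      _ = 2 ^ (s - 1) * ((a + b - 2) * ((1 + z) ^ s + 1)) := by ring
      _ ≤ 2 ^ (s - 1) * (2 * (a * b - 1)) := mul_le_mul_of_nonneg_left h3 h4.le
      _ = 2 * 2 ^ (s - 1) * (a * b - 1) := by ring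

open scoped Classical in
theorem cp_ge_pow {z : ℝ} (hz : 0 < z) (H : SimpleGraph V) (α : V → ℝ) (hα : ∀ x, 0 ≤ α x)
    (D : Finset V) (hD : ∀ x ∈ D, z ≤ α x) (c : H.ConnectedComponent) :
    (1 + z) ^ (D.filter (fun x => H.connectedComponentMk x = c)).card ≤ cp H α c := by
  unfold cp
  rw [← Finset.prod_const]
  calc ∏ _x ∈ D.filter (fun x => H.connectedComponentMk x = c), (1 + z)
      ≤ ∏ x ∈ D.filter (fun x => H.connectedComponentMk x = c), (1 + α x) := by
        refine Finset.prod_le_prod (fun _ _ => by linarith) fun x hx => ?_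
        have := hD x (Finset.mem_filter.1 hx).1
        linarith
    _ ≤ _ := by
        have hsub : D.filter (fun x => H.connectedComponentMk x = c) ⊆
            Finset.univ.filter (fun x => H.connectedComponentMk x = c) := by
          intro x hx
          rw [Finset.mem_filter] at hx ⊢
          exact ⟨Finset.mem_univ _, hx.2⟩
        rw [← Finset.prod_sdiff hsub]
        have hpos : 0 ≤ ∏ x ∈ D.filter (fun x => H.connectedComponentMk x = c), (1 + α x) :=
          Finset.prod_nonneg fun x _ => by have := hα x; linarith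
        refine le_mul_of_one_le_left hpos ?_
        calc (1 : ℝ) = ∏ _x ∈ (Finset.univ.filter (fun x => H.connectedComponentMk x = c)) \
              (D.filter (fun x => H.connectedComponentMk x = c)), 1 := by simp
          _ ≤ _ := Finset.prod_le_prod (fun _ _ => zero_le_one) fun x _ => by
              have := hα x
              linarith

/-- Adding an edge between two vertices with many common neighbours. -/
theorem ub_option {z : ℝ} (hz : 0 < z) (w w' : Sym2 (Option (Option V)) → ℝ)
    (hw : ∀ e, 0 ≤ w e) (h0 : w s(none, some none) = 0) (h0' : w' s(none, some none) = z)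
    (hs : ∀ s, s ≠ s(none, some none) → w' s = w s) (D : Finset V)
    (h1 : ∀ x ∈ D, z ≤ w s(none, some (some x)))
    (h2 : ∀ x ∈ D, z ≤ w s(some none, some (some x))) :
    (1 - (2 / (2 + z)) ^ D.card) * Z w' ≤ (1 - (2 / (2 + z)) ^ D.card + z) * Z w := by
  classical
  rw [Z_option_option, Z_option_option, h0, h0', Finset.mul_sum, Finset.mul_sum]
  refine Finset.sum_le_sum fun H _ => ?_
  have e1 : wt (fun e => w' ((e.map some).map some)) H =
      wt (fun e => w ((e.map some).map some)) H := by
    refine wt_congr (fun x y _ => ?_) H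
    simp only [Sym2.map_mk]
    exact hs _ (by simp)
  have e3 : ∀ x : V, w' s(none, some (some x)) = w s(none, some (some x)) := by
    intro x
    exact hs _ (by simp)
  have e4 : ∀ x : V, w' s(some none, some (some x)) = w s(some none, some (some x)) := by
    intro x
    exact hs _ (by simp)
  simp only [e1, e3, e4]
  set α : V → ℝ := fun x => w s(none, some (some x)) with hα
  set β : V → ℝ := fun x => w s(some none, some (some x)) with hβ
  set r : ℝ := (2 / (2 + z)) ^ D.card with hr
  have hA : ∏ c : H.ConnectedComponent, (cp H α c + cp H β c - 2) ≤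
      r * ∏ c : H.ConnectedComponent, (cp H α c * cp H β c - 1) := by
    have hcard : D.card = ∑ c : H.ConnectedComponent,
        (D.filter (fun x => H.connectedComponentMk x = c)).card :=
      Finset.card_eq_sum_card_fiberwise (fun x _ => Finset.mem_coe.2 (Finset.mem_univ _))
    rw [hr, hcard, ← Finset.prod_pow_eq_pow_sum, ← Finset.prod_mul_distrib]
    refine Finset.prod_le_prod (fun c _ => ?_) (fun c _ => ?_)
    · have a1 := cp_ge_one (α := α) (fun x => hw _) H c
      have a2 := cp_ge_one (α := β) (fun x => hw _) H c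
      linarith
    · exact comp_real hz _ (cp_ge_pow hz H α (fun x => hw _) D h1 c)
        (cp_ge_pow hz H β (fun x => hw _) D h2 c)
  have hwt := wt_nonneg (w := fun e => w ((e.map some).map some)) (fun e => hw _) H
  set F := ∏ c : H.ConnectedComponent, (cp H α c * cp H β c - 1)
  set G := ∏ c : H.ConnectedComponent, (cp H α c + cp H β c - 2)
  set W := wt (fun e => w ((e.map some).map some)) H
  have : (1 - r) * (W * ((1 + z) * F - G)) = (1 - r + z) * (W * ((1 + 0) * F - G)) +
      z * W * (G - r * F) := by ring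
  rw [this]
  have h5 : z * W * (G - r * F) ≤ 0 :=
    mul_nonpos_of_nonneg_of_nonpos (by positivity) (by linarith)
  linarith

theorem ub {z : ℝ} (hz : 0 < z) (p q : V) (hne : p ≠ q) (w w' : Sym2 V → ℝ)
    (hw : ∀ e, 0 ≤ w e) (h0 : w s(p, q) = 0) (h0' : w' s(p, q) = z)
    (hs : ∀ s, s ≠ s(p, q) → w' s = w s) (D : Finset V)
    (hD : ∀ x ∈ D, x ≠ p ∧ x ≠ q ∧ z ≤ w s(p, x) ∧ z ≤ w s(q, x)) :
    (1 - (2 / (2 + z)) ^ D.card) * Z w' ≤ (1 - (2 / (2 + z)) ^ D.card + z) * Z w := by
  classical
  obtain ⟨U, hU, e, hp, hq⟩ := exists_equiv_two p q hne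
  let D' : Finset U := Finset.univ.filter (fun x => e (some (some x)) ∈ D)
  have hcard : D'.card = D.card := by
    refine Finset.card_bij (fun x _ => e (some (some x))) ?_ ?_ ?_
    · intro x hx
      exact (Finset.mem_filter.1 hx).2
    · intro a _ b _ hab
      simpa using e.injective hab
    · intro y hy
      obtain ⟨hyp, hyq, _⟩ := hD y hy
      rcases hey : e.symm y with _ | _ | u
      · exact absurd ((Equiv.symm_apply_eq e).1 hey) (by rw [hp]; exact hyp)
      · exact absurd ((Equiv.symm_apply_eq e).1 hey) (by rw [hq]; exact hyq)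
      · refine ⟨u, ?_, ((Equiv.symm_apply_eq e).1 hey).symm⟩
        rw [Finset.mem_filter]
        refine ⟨Finset.mem_univ _, ?_⟩
        rw [← (Equiv.symm_apply_eq e).1 hey]
        exact hy
  rw [← hcard, ← Z_equiv e w, ← Z_equiv e w']
  refine ub_option hz _ _ (fun _ => hw _) ?_ ?_ ?_ D' ?_ ?_
  · simp only [Sym2.map_mk, hp, hq]
    exact h0
  · simp only [Sym2.map_mk, hp, hq]
    exact h0'
  · intro s hs'
    refine hs _ ?_
    intro h
    apply hs'
    apply Sym2.map.injective e.injective
    rw [h]
    simp [hp, hq]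
  · intro x hx
    simp only [Sym2.map_mk, hp]
    exact (hD _ (Finset.mem_filter.1 hx).2).2.2.1
  · intro x hx
    simp only [Sym2.map_mk, hq]
    exact (hD _ (Finset.mem_filter.1 hx).2).2.2.2

end Pool.Agent.MP_91840b_co
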