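import Mathlib

/-!
The numerical inequality behind the main step.
-/

namespace Pool.Agent.MP_91840b_co

open Finset

theorem pair_ineq {y a b c : ℝ} (hy : 1 < y) (ha : 1 < a) (hb : 1 < b) (_hc : 1 < c)
    (hab : a * b = c * c) :
    ((y * c - 1) / (c - 1)) ^ 2 ≤ ((y * a - 1) / (a - 1)) * ((y * b - 1) / (b - 1)) := by
  have hsum : 2 * c ≤ a + b := by
    have h1 : (2 * c) ^ 2 ≤ (a + b) ^ 2 := by nlinarith [sq_nonneg (a - b)]
    exact le_of_sq_le_sq h1 (by linarith)
  rw [div_pow, div_mul_div_comm, div_le_div_iff₀ (by nlinarith) (by nlinarith)]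
  have h2 : 0 ≤ (a + b - 2 * c) * ((y - 1) * (y * (c * c) - 1)) := by
    refine mul_nonneg (by linarith) (mul_nonneg (by linarith) ?_)
    nlinarith
  have h3 : (y * a - 1) * (y * b - 1) * (c - 1) ^ 2 - (y * c - 1) ^ 2 * ((a - 1) * (b - 1)) =
      (a + b - 2 * c) * ((y - 1) * (y * (c * c) - 1)) := by
    have e1 : (y * a - 1) * (y * b - 1) = y ^ 2 * (a * b) - y * (a + b) + 1 := by ring
    have e2 : (a - 1) * (b - 1) = a * b - (a + b) + 1 := by ring
    rw [e1, e2, hab]
    ring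
  linarith

theorem prod_telescope {y : ℝ} (hy : 1 < y) (n : ℕ) :
    ∏ j ∈ Finset.range n, ((y * y ^ (j + 1) - 1) / (y ^ (j + 1) - 1)) =
      (y ^ (n + 1) - 1) / (y - 1) := by
  induction n with
  | zero =>
    have : y - 1 ≠ 0 := by linarith
    simp [this]
  | succ n ih =>
    rw [Finset.prod_range_succ, ih]
    have h1 : y - 1 ≠ 0 := by linarith
    have h2 : y ^ (n + 1) - 1 ≠ 0 := by
      have h3 : 1 < y ^ (n + 1) := one_lt_pow₀ hy (Nat.succ_ne_zero n)
      exact ne_of_gt (by linarith)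
    rw [div_mul_div_comm, pow_succ y (n + 1)]
    rw [div_eq_div_iff (mul_ne_zero h1 h2) h1]
    ring

/-- The numerical inequality. -/
theorem numeric {z : ℝ} (hz : 0 < z) (n : ℕ) :
    ((1 - (2 / (2 + z)) ^ (n + 1) + z) / (1 - (2 / (2 + z)) ^ (n + 1))) ^ n * z ≤
      (1 + z) ^ (n + 1) - 1 := by
  set y : ℝ := 1 + z with hy
  have hy1 : 1 < y := by linarith
  set s : ℝ := Real.sqrt y with hs
  have hss : s * s = y := Real.mul_self_sqrt (by linarith)
  have hs1 : 1 < s := by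
    rw [hs, Real.lt_sqrt (by norm_num)]
    linarith
  set c : ℝ := s ^ (n + 1) with hc
  have hc1 : 1 < c := one_lt_pow₀ hs1 (Nat.succ_ne_zero n)
  have hcc : c * c = y ^ (n + 1) := by
    rw [hc, ← mul_pow, hss]
  set r : ℝ := (2 / (2 + z)) ^ (n + 1) with hr
  have hrc : r * c ≤ 1 := by
    rw [hr, hc, ← mul_pow]
    refine pow_le_one₀ (by positivity) ?_
    rw [div_mul_eq_mul_div, div_le_one (by linarith)]
    nlinarith [sq_nonneg (s - 1)]
  have hr0 : 0 < r := by positivity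
  have hr1 : r < 1 := by
    rw [hr]
    refine pow_lt_one₀ (by positivity) ?_ (Nat.succ_ne_zero n)
    rw [div_lt_one (by linarith)]
    linarith
  have hA : (1 - r + z) / (1 - r) ≤ (y * c - 1) / (c - 1) := by
    rw [div_le_div_iff₀ (by linarith) (by linarith)]
    have : (y * c - 1) * (1 - r) - (1 - r + z) * (c - 1) = z * (1 - r * c) := by
      rw [hy]; ring
    have h2 : 0 ≤ z * (1 - r * c) := mul_nonneg hz.le (by linarith)
    linarith
  have hA0 : 0 ≤ (1 - r + z) / (1 - r) := div_nonneg (by linarith) (by linarith)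
  have hQ0 : 0 ≤ (y * c - 1) / (c - 1) := div_nonneg (by nlinarith) (by linarith)
  set P : ℝ := (y ^ (n + 1) - 1) / (y - 1) with hP
  have hP0 : 0 ≤ P := by
    rw [hP]
    have h5 : 1 < y ^ (n + 1) := one_lt_pow₀ hy1 (Nat.succ_ne_zero n)
    exact div_nonneg (by linarith) (by linarith)
  have hQP : ((y * c - 1) / (c - 1)) ^ n ≤ P := by
    have h1 : (((y * c - 1) / (c - 1)) ^ n) ^ 2 ≤ P ^ 2 := by
      have e1 : P = ∏ j ∈ Finset.range n, ((y * y ^ (j + 1) - 1) / (y ^ (j + 1) - 1)) :=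
        (prod_telescope hy1 n).symm
      have e2 : P = ∏ j ∈ Finset.range n,
          ((y * y ^ ((n - 1 - j) + 1) - 1) / (y ^ ((n - 1 - j) + 1) - 1)) := by
        rw [e1]
        exact (Finset.prod_range_reflect
          (fun j => (y * y ^ (j + 1) - 1) / (y ^ (j + 1) - 1)) n).symm
      have e3 : P ^ 2 = ∏ j ∈ Finset.range n, (((y * y ^ (j + 1) - 1) / (y ^ (j + 1) - 1)) *
          ((y * y ^ ((n - 1 - j) + 1) - 1) / (y ^ ((n - 1 - j) + 1) - 1))) := by
        rw [Finset.prod_mul_distrib, ← e1, ← e2, sq]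
      have e4 : (((y * c - 1) / (c - 1)) ^ n) ^ 2 =
          ∏ _j ∈ Finset.range n, ((y * c - 1) / (c - 1)) ^ 2 := by
        rw [Finset.prod_const, Finset.card_range, ← pow_mul, ← pow_mul, mul_comm n 2]
      rw [e3, e4]
      refine Finset.prod_le_prod (fun _ _ => sq_nonneg _) fun j hj => ?_
      have hjn : j < n := Finset.mem_range.1 hj
      refine pair_ineq hy1 (one_lt_pow₀ hy1 (Nat.succ_ne_zero _))
        (one_lt_pow₀ hy1 (Nat.succ_ne_zero _)) hc1 ?_
      rw [hcc, ← pow_add]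
      congr 1
      omega
    exact le_of_sq_le_sq h1 hP0
  have h3 : ((1 - r + z) / (1 - r)) ^ n ≤ P := le_trans (pow_le_pow_left₀ hA0 hA n) hQP
  have h4 : P * z = (1 + z) ^ (n + 1) - 1 := by
    rw [hP]
    have : y - 1 = z := by rw [hy]; ring
    rw [this, div_mul_cancel₀ _ hz.ne']
  calc _ ≤ P * z := mul_le_mul_of_nonneg_right h3 hz.le
    _ = _ := h4

end Pool.Agent.MP_91840b_co
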