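import Mathlib
import Pool.Agent.Lib.MP_91840b_co.Ineq2
import Pool.Agent.Lib.MP_91840b_co.Numeric

/-!
Simple graphs: adding edges, and the main estimate.
-/

namespace Pool.Agent.MP_91840b_co

open Finset

universe u

section

variable {V : Type u}

/-- The number of edges. -/
noncomputable def ecard (G : SimpleGraph V) : ℕ := G.edgeSet.ncard

open scoped Classical in
/-- The weight function of a simple graph: `z` on edges, `0` elsewhere. -/
noncomputable def gw (z : ℝ) (G : SimpleGraph V) (s : Sym2 V) : ℝ :=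
  if s ∈ G.edgeSet then z else 0

/-- The connected spanning subgraph sum of a simple graph. -/
noncomputable def Zg [Fintype V] (z : ℝ) (G : SimpleGraph V) : ℝ := Z (gw z G)

theorem gw_adj {z : ℝ} {G : SimpleGraph V} {x y : V} (h : G.Adj x y) : gw z G s(x, y) = z := by
  unfold gw
  rw [if_pos]
  exact h

theorem gw_not_adj {z : ℝ} {G : SimpleGraph V} {x y : V} (h : ¬ G.Adj x y) :
    gw z G s(x, y) = 0 := by
  unfold gw
  rw [if_neg]
  exact h

theorem gw_nonneg {z : ℝ} (hz : 0 ≤ z) (G : SimpleGraph V) (s : Sym2 V) : 0 ≤ gw z G s := by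
  unfold gw
  split_ifs
  · exact hz
  · exact le_refl 0

theorem gw_le {z : ℝ} (hz : 0 ≤ z) (G : SimpleGraph V) (s : Sym2 V) : gw z G s ≤ z := by
  unfold gw
  split_ifs
  · exact le_refl z
  · exact hz

/-- Add an edge. -/
def addE (G : SimpleGraph V) (u v : V) : SimpleGraph V := G ⊔ SimpleGraph.edge u v

theorem addE_edgeSet (G : SimpleGraph V) {u v : V} (h : u ≠ v) :
    (addE G u v).edgeSet = insert s(u, v) G.edgeSet := by
  ext s
  induction s using Sym2.ind with
  | _ x y =>
    simp only [addE, SimpleGraph.mem_edgeSet, SimpleGraph.sup_adj, SimpleGraph.edge_adj,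
      Set.mem_insert_iff, Sym2.eq_iff]
    constructor
    · rintro (h1 | ⟨h1, _⟩)
      · exact Or.inr h1
      · exact Or.inl h1
    · rintro (h1 | h1)
      · right
        refine ⟨h1, ?_⟩
        rcases h1 with ⟨rfl, rfl⟩ | ⟨rfl, rfl⟩
        · exact h
        · exact h.symm
      · exact Or.inl h1

theorem addE_adj (G : SimpleGraph V) {u v : V} (h : u ≠ v) (x y : V) :
    (addE G u v).Adj x y ↔ s(x, y) = s(u, v) ∨ G.Adj x y := by
  rw [← SimpleGraph.mem_edgeSet, addE_edgeSet G h, Set.mem_insert_iff,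
    SimpleGraph.mem_edgeSet]

theorem le_addE (G : SimpleGraph V) (u v : V) : G ≤ addE G u v := le_sup_left

theorem ecard_addE [Finite V] (G : SimpleGraph V) {u v : V} (h : u ≠ v) (hn : ¬ G.Adj u v) :
    ecard (addE G u v) = ecard G + 1 := by
  unfold ecard
  have hn' : s(u, v) ∉ G.edgeSet := hn
  rw [addE_edgeSet G h, Set.ncard_insert_of_notMem hn' (Set.toFinite _)]

theorem gw_addE {z : ℝ} (G : SimpleGraph V) {u v : V} (h : u ≠ v) :
    gw z (addE G u v) s(u, v) = z ∧
      ∀ s, s ≠ s(u, v) → gw z (addE G u v) s = gw z G s := by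
  have hset := addE_edgeSet G h
  constructor
  · unfold gw
    rw [if_pos]
    rw [hset]
    exact Set.mem_insert _ _
  · intro s hs
    unfold gw
    by_cases h1 : s ∈ G.edgeSet
    · rw [if_pos (by rw [hset]; exact Set.mem_insert_of_mem _ h1), if_pos h1]
    · rw [if_neg, if_neg h1]
      rw [hset]
      rintro (h2 | h2)
      · exact hs h2
      · exact h1 h2

theorem ecard_mono [Finite V] {G H : SimpleGraph V} (h : G ≤ H) : ecard G ≤ ecard H :=
  Set.ncard_le_ncard (SimpleGraph.edgeSet_mono h) (Set.toFinite _)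

theorem eq_of_ecard_le [Finite V] {G H : SimpleGraph V} (h : G ≤ H) (hc : ecard H ≤ ecard G) :
    G = H := by
  have := Set.eq_of_subset_of_ncard_le (SimpleGraph.edgeSet_mono h) hc (Set.toFinite _)
  exact SimpleGraph.edgeSet_inj.1 this

theorem ecard_top [Fintype V] : ecard (⊤ : SimpleGraph V) = (Fintype.card V).choose 2 := by
  classical
  unfold ecard
  rw [← SimpleGraph.coe_edgeFinset, Set.ncard_coe_finset, SimpleGraph.card_edgeFinset_top_eq_card_choose_two]

theorem ecard_le_choose [Fintype V] (G : SimpleGraph V) :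
    ecard G ≤ (Fintype.card V).choose 2 := by
  rw [← ecard_top]
  exact ecard_mono le_top

theorem exists_not_adj [Finite V] {G H : SimpleGraph V} (_h : G ≤ H) (hc : ecard G < ecard H) :
    ∃ u v, u ≠ v ∧ H.Adj u v ∧ ¬ G.Adj u v := by
  by_contra hcon
  push Not at hcon
  have : H ≤ G := by
    intro x y hxy
    exact hcon x y hxy.ne hxy
  have := ecard_mono this
  omega

theorem addE_le {G H : SimpleGraph V} (h : G ≤ H) {u v : V} (hne : u ≠ v) (huv : H.Adj u v) :
    addE G u v ≤ H := by
  intro x y hxy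
  rw [addE_adj G hne] at hxy
  rcases hxy with h1 | h1
  · rw [Sym2.eq_iff] at h1
    rcases h1 with ⟨rfl, rfl⟩ | ⟨rfl, rfl⟩
    · exact huv
    · exact huv.symm
  · exact h h1

/-- There are intermediate graphs with any number of edges. -/
theorem exists_between [Finite V] (G H : SimpleGraph V) (h : G ≤ H) (j : ℕ)
    (hj : ecard G + j ≤ ecard H) : ∃ Y, G ≤ Y ∧ Y ≤ H ∧ ecard Y = ecard G + j := by
  induction j with
  | zero => exact ⟨G, le_refl _, h, rfl⟩
  | succ j ih =>
    obtain ⟨Y, h1, h2, h3⟩ := ih (by omega)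
    obtain ⟨u, v, hne, ha, hn⟩ := exists_not_adj h2 (by omega)
    refine ⟨addE Y u v, h1.trans (le_addE Y u v), addE_le h2 hne ha, ?_⟩
    rw [ecard_addE Y hne hn, h3]
    ring

end

section Main

variable {V : Type u} [Fintype V]

theorem Zg_nonneg {z : ℝ} (hz : 0 ≤ z) (G : SimpleGraph V) : 0 ≤ Zg z G :=
  Z_nonneg (gw_nonneg hz G)

/-- Adding an edge between two vertices with all of `W` as common neighbours. -/
theorem Zg_addE {z : ℝ} (hz : 0 < z) (G : SimpleGraph V) {u v : V} (hne : u ≠ v)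
    (hn : ¬ G.Adj u v) (W : Finset V) (hW : ∀ x ∈ W, x ≠ u ∧ x ≠ v ∧ G.Adj u x ∧ G.Adj v x) :
    (1 - (2 / (2 + z)) ^ W.card) * Zg z (addE G u v) ≤
      (1 - (2 / (2 + z)) ^ W.card + z) * Zg z G := by
  obtain ⟨h1, h2⟩ := gw_addE (z := z) G hne
  refine ub hz u v hne (gw z G) (gw z (addE G u v)) (gw_nonneg hz.le G) (gw_not_adj hn) h1 h2 W ?_
  intro x hx
  obtain ⟨h3, h4, h5, h6⟩ := hW x hx
  exact ⟨h3, h4, (gw_adj h5).ge, (gw_adj h6).ge⟩

/-- Adding many edges to a graph in which all vertices of `W` are dominating. -/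
theorem Zg_add_many {z : ℝ} (hz : 0 < z) (W : Finset V) :
    ∀ (j : ℕ) (X Y : SimpleGraph V), X ≤ Y → ecard Y = ecard X + j →
      (∀ w ∈ W, ∀ x, x ≠ w → X.Adj w x) →
      (1 - (2 / (2 + z)) ^ W.card) ^ j * Zg z Y ≤
        (1 - (2 / (2 + z)) ^ W.card + z) ^ j * Zg z X := by
  have hr0 : (2 / (2 + z)) ^ W.card ≤ 1 :=
    pow_le_one₀ (by positivity) (by rw [div_le_one (by linarith)]; linarith)
  intro j
  induction j with
  | zero =>
    intro X Y hXY hc _
    rw [eq_of_ecard_le hXY (by omega)]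
    simp
  | succ j ih =>
    intro X Y hXY hc hW
    obtain ⟨u, v, hne, ha, hn⟩ := exists_not_adj hXY (by omega)
    have h1 := ih (addE X u v) Y (addE_le hXY hne ha) (by rw [ecard_addE X hne hn]; omega)
      (fun w hw x hx => le_addE X u v (hW w hw x hx))
    have huW : ∀ x ∈ W, x ≠ u ∧ x ≠ v ∧ X.Adj u x ∧ X.Adj v x := by
      intro x hx
      have hxu : x ≠ u := by
        rintro rfl
        exact hn (hW x hx v hne.symm)
      have hxv : x ≠ v := by
        rintro rfl
        exact hn (hW x hx u hne).symm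
      exact ⟨hxu, hxv, (hW x hx u hxu.symm).symm, (hW x hx v hxv.symm).symm⟩
    have h2 := Zg_addE hz X hne hn W huW
    set r := (2 / (2 + z)) ^ W.card with hr
    calc (1 - r) ^ (j + 1) * Zg z Y = (1 - r) * ((1 - r) ^ j * Zg z Y) := by ring
      _ ≤ (1 - r) * ((1 - r + z) ^ j * Zg z (addE X u v)) :=
          mul_le_mul_of_nonneg_left h1 (by linarith)
      _ = (1 - r + z) ^ j * ((1 - r) * Zg z (addE X u v)) := by ring
      _ ≤ (1 - r + z) ^ j * ((1 - r + z) * Zg z X) :=
          mul_le_mul_of_nonneg_left h2 (pow_nonneg (by linarith) _)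
      _ = (1 - r + z) ^ (j + 1) * Zg z X := by ring

theorem ext_adj_iff {V : Type*} (X : SimpleGraph V) (S : V → Bool) (x y : V) :
    (ext X S).Adj (some x) (some y) ↔ X.Adj x y := Iff.rfl

theorem gw_ext_some {V : Type*} {z : ℝ} (X : SimpleGraph V) (S : V → Bool) (s : Sym2 V) :
    gw z (ext X S) (s.map some) = gw z X s := by
  induction s using Sym2.ind with
  | _ x y =>
    by_cases h : X.Adj x y
    · rw [gw_adj h]
      exact gw_adj (G := ext X S) h
    · rw [gw_not_adj h]
      exact gw_not_adj (G := ext X S) h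

open scoped Classical in
/-- Adding a vertex. -/
theorem Zg_ext_ge {z : ℝ} (hz : 0 ≤ z) (X : SimpleGraph V) (S : V → Bool) :
    ((1 + z) ^ (Finset.univ.filter (fun x => S x = true)).card - 1) * Zg z X ≤
      Zg z (ext X S) := by
  have h := add_vertex (gw z (ext X S)) (gw_nonneg hz _)
  have h1 : ∏ x, (1 + gw z (ext X S) s(none, some x)) =
      (1 + z) ^ (Finset.univ.filter (fun x => S x = true)).card := by
    rw [← Finset.prod_const, Finset.prod_filter]
    refine Finset.prod_congr rfl fun x _ => ?_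
    by_cases hx : S x = true
    · rw [if_pos hx, gw_adj (G := ext X S) (x := none) (y := some x) hx]
    · rw [if_neg hx, gw_not_adj (G := ext X S) (x := none) (y := some x) hx, add_zero]
  rw [h1] at h
  have h2 : Z (fun e => gw z (ext X S) (e.map some)) = Zg z X := by
    unfold Zg
    congr 1
    funext s
    exact gw_ext_some X S s
  rw [h2] at h
  exact h

/-- The main estimate: a vertex joined only to dominating vertices can be emptied. -/
theorem main_step {z : ℝ} (hz : 0 < z) (X Y : SimpleGraph V) (hXY : X ≤ Y) (S : V → Bool)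
    (n : ℕ) (hS : (Finset.univ.filter (fun x => S x = true)).card = n + 1)
    (hc : ecard Y = ecard X + n) (hW : ∀ w, S w = true → ∀ x, x ≠ w → X.Adj w x) :
    z * Zg z Y ≤ Zg z (ext X S) := by
  classical
  have h1 := Zg_add_many hz (Finset.univ.filter (fun x => S x = true)) n X Y hXY hc
    (fun w hw x hx => hW w (Finset.mem_filter.1 hw).2 x hx)
  rw [hS] at h1
  have h2 := numeric hz n
  have h3 : ((1 + z) ^ (n + 1) - 1) * Zg z X ≤ Zg z (ext X S) := by
    have := Zg_ext_ge hz.le X S
    convert this using 4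
    exact hS.symm
  set r := (2 / (2 + z)) ^ (n + 1) with hr
  have hr1 : r < 1 := by
    rw [hr]
    refine pow_lt_one₀ (by positivity) ?_ (Nat.succ_ne_zero n)
    rw [div_lt_one (by linarith)]
    linarith
  have hpos : 0 < (1 - r) ^ n := pow_pos (by linarith) _
  have h4 : Zg z Y ≤ ((1 - r + z) / (1 - r)) ^ n * Zg z X := by
    rw [div_pow, div_mul_eq_mul_div, le_div_iff₀ hpos]
    linarith
  calc z * Zg z Y ≤ z * (((1 - r + z) / (1 - r)) ^ n * Zg z X) :=
        mul_le_mul_of_nonneg_left h4 hz.le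
    _ = (((1 - r + z) / (1 - r)) ^ n * z) * Zg z X := by ring
    _ ≤ ((1 + z) ^ (n + 1) - 1) * Zg z X :=
        mul_le_mul_of_nonneg_right h2 (Zg_nonneg hz.le X)
    _ ≤ _ := h3

end Main

end Pool.Agent.MP_91840b_co
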