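import Mathlib
import Pool.Agent.Lib.MP_91840b_co.Graph

/-!
Compression (shifting) of a connected graph on `Fin n`.
-/

namespace Pool.Agent.MP_91840b_co

open Finset

universe u

section Shift

variable {V : Type u}

/-- Adjacency of the graph obtained by moving the private neighbours of `q` to `p`. -/
def sAdj (G : SimpleGraph V) (p q a b : V) : Prop :=
  (a ≠ p ∧ a ≠ q ∧ b ≠ p ∧ b ≠ q ∧ G.Adj a b) ∨
  (((a = p ∧ b = q) ∨ (a = q ∧ b = p)) ∧ G.Adj p q) ∨
  (a = p ∧ b ≠ p ∧ b ≠ q ∧ (G.Adj p b ∨ G.Adj q b)) ∨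
  (b = p ∧ a ≠ p ∧ a ≠ q ∧ (G.Adj p a ∨ G.Adj q a)) ∨
  (a = q ∧ b ≠ p ∧ b ≠ q ∧ (G.Adj p b ∧ G.Adj q b)) ∨
  (b = q ∧ a ≠ p ∧ a ≠ q ∧ (G.Adj p a ∧ G.Adj q a))

theorem sAdj_symm (G : SimpleGraph V) (p q a b : V) (h : sAdj G p q a b) : sAdj G p q b a := by
  rcases h with ⟨h1, h2, h3, h4, h5⟩ | ⟨h1, h2⟩ | h | h | h | h
  · exact Or.inl ⟨h3, h4, h1, h2, h5.symm⟩
  · refine Or.inr (Or.inl ⟨?_, h2⟩)
    rcases h1 with ⟨h3, h4⟩ | ⟨h3, h4⟩
    · exact Or.inr ⟨h4, h3⟩
    · exact Or.inl ⟨h4, h3⟩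
  · exact Or.inr (Or.inr (Or.inr (Or.inl h)))
  · exact Or.inr (Or.inr (Or.inl h))
  · exact Or.inr (Or.inr (Or.inr (Or.inr (Or.inr h))))
  · exact Or.inr (Or.inr (Or.inr (Or.inr (Or.inl h))))

theorem sAdj_irrefl (G : SimpleGraph V) (p q a : V) : ¬ sAdj G p q a a := by
  rintro (⟨_, _, _, _, h5⟩ | ⟨h1, h2⟩ | ⟨h1, h2, _⟩ | ⟨h1, h2, _⟩ | ⟨h1, _, h2, _⟩ | ⟨h1, _, h2, _⟩)
  · exact G.loopless.irrefl a h5
  · rcases h1 with ⟨h3, h4⟩ | ⟨h3, h4⟩
    · exact h2.ne (h3.symm.trans h4)
    · exact h2.ne (h4.symm.trans h3)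
  · exact h2 h1
  · exact h2 h1
  · exact h2 h1
  · exact h2 h1

/-- Move the private neighbours of `q` to `p`. -/
def shiftG (G : SimpleGraph V) (p q : V) : SimpleGraph V where
  Adj := sAdj G p q
  symm := ⟨fun a b => sAdj_symm G p q a b⟩
  loopless := ⟨fun a => sAdj_irrefl G p q a⟩

variable {G : SimpleGraph V} {p q : V}

theorem sh_pq (_hne : p ≠ q) : (shiftG G p q).Adj p q ↔ G.Adj p q := by
  constructor
  · rintro (⟨h1, _⟩ | ⟨_, h2⟩ | ⟨_, _, h1, _⟩ | ⟨h1, h2, _⟩ | ⟨_, _, h1, _⟩ | ⟨_, h1, _⟩)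
    · exact absurd rfl h1
    · exact h2
    · exact absurd rfl h1
    · exact absurd rfl h2
    · exact absurd rfl h1
    · exact absurd rfl h1
  · intro h
    exact Or.inr (Or.inl ⟨Or.inl ⟨rfl, rfl⟩, h⟩)

theorem sh_p (hne : p ≠ q) {x : V} (hxp : x ≠ p) (hxq : x ≠ q) :
    (shiftG G p q).Adj p x ↔ (G.Adj p x ∨ G.Adj q x) := by
  constructor
  · rintro (⟨h1, _⟩ | ⟨h1, _⟩ | ⟨_, _, _, h1⟩ | ⟨h1, _⟩ | ⟨h1, _⟩ | ⟨h1, _⟩)
    · exact absurd rfl h1
    · rcases h1 with ⟨_, h1⟩ | ⟨_, h1⟩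
      · exact absurd h1 hxq
      · exact absurd h1 hxp
    · exact h1
    · exact absurd h1 hxp
    · exact absurd h1 hne
    · exact absurd h1 hxq
  · intro h
    exact Or.inr (Or.inr (Or.inl ⟨rfl, hxp, hxq, h⟩))

theorem sh_q (hne : p ≠ q) {x : V} (hxp : x ≠ p) (hxq : x ≠ q) :
    (shiftG G p q).Adj q x ↔ (G.Adj p x ∧ G.Adj q x) := by
  constructor
  · rintro (⟨_, h1, _⟩ | ⟨h1, _⟩ | ⟨h1, _⟩ | ⟨h1, _⟩ | ⟨_, _, _, h1⟩ | ⟨h1, _⟩)
    · exact absurd rfl h1
    · rcases h1 with ⟨_, h1⟩ | ⟨_, h1⟩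
      · exact absurd h1 hxq
      · exact absurd h1 hxp
    · exact absurd h1.symm hne
    · exact absurd h1 hxp
    · exact h1
    · exact absurd h1 hxq
  · intro h
    exact Or.inr (Or.inr (Or.inr (Or.inr (Or.inl ⟨rfl, hxp, hxq, h⟩))))

theorem sh_o {a b : V} (hap : a ≠ p) (haq : a ≠ q) (hbp : b ≠ p) (hbq : b ≠ q) :
    (shiftG G p q).Adj a b ↔ G.Adj a b := by
  constructor
  · rintro (h | ⟨h1, _⟩ | ⟨h1, _⟩ | ⟨h1, _⟩ | ⟨h1, _⟩ | ⟨h1, _⟩)
    · exact h.2.2.2.2
    · rcases h1 with ⟨h1, _⟩ | ⟨h1, _⟩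
      · exact absurd h1 hap
      · exact absurd h1 haq
    · exact absurd h1 hap
    · exact absurd h1 hbp
    · exact absurd h1 haq
    · exact absurd h1 hbq
  · intro h
    exact Or.inl ⟨hap, haq, hbp, hbq, h⟩

/-- Compression does not increase the weighted sum. -/
theorem Zg_shift [Fintype V] {z : ℝ} (hz : 0 ≤ z) (hne : p ≠ q) :
    Zg z (shiftG G p q) ≤ Zg z G := by
  refine kelmans p q hne _ _ (gw_nonneg hz _) (gw_nonneg hz _) ?_ ?_ ?_ ?_ ?_
  · intro x y hxp hxq hyp hyq _
    by_cases h : G.Adj x y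
    · rw [gw_adj h, gw_adj ((sh_o hxp hxq hyp hyq).2 h)]
    · rw [gw_not_adj h, gw_not_adj (fun h' => h ((sh_o hxp hxq hyp hyq).1 h'))]
  · by_cases h : G.Adj p q
    · rw [gw_adj h, gw_adj ((sh_pq hne).2 h)]
    · rw [gw_not_adj h, gw_not_adj (fun h' => h ((sh_pq hne).1 h'))]
  · intro x hxp hxq
    by_cases h1 : G.Adj p x
    · by_cases h2 : G.Adj q x
      · rw [gw_adj h1, gw_adj h2, gw_adj ((sh_p hne hxp hxq).2 (Or.inl h1)),
          gw_adj ((sh_q hne hxp hxq).2 ⟨h1, h2⟩)]
      · rw [gw_adj h1, gw_not_adj h2, gw_adj ((sh_p hne hxp hxq).2 (Or.inl h1)),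
          gw_not_adj (fun h' => h2 ((sh_q hne hxp hxq).1 h').2)]
    · by_cases h2 : G.Adj q x
      · rw [gw_not_adj h1, gw_adj h2, gw_adj ((sh_p hne hxp hxq).2 (Or.inr h2)),
          gw_not_adj (fun h' => h1 ((sh_q hne hxp hxq).1 h').1)]
        ring
      · rw [gw_not_adj h1, gw_not_adj h2,
          gw_not_adj (fun h' => ((sh_p hne hxp hxq).1 h').elim h1 h2),
          gw_not_adj (fun h' => h1 ((sh_q hne hxp hxq).1 h').1)]
  · intro x hxp hxq
    by_cases h1 : G.Adj p x
    · rw [gw_adj h1, gw_adj ((sh_p hne hxp hxq).2 (Or.inl h1))]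
    · rw [gw_not_adj h1]
      exact gw_nonneg hz _ _
  · intro x hxp hxq
    by_cases h1 : G.Adj q x
    · rw [gw_adj h1, gw_adj ((sh_p hne hxp hxq).2 (Or.inr h1))]
    · rw [gw_not_adj h1]
      exact gw_nonneg hz _ _

/-- Compression along a pair at distance at most two keeps the graph connected. -/
theorem shift_connected (hne : p ≠ q) (hG : G.Connected)
    (hd : G.Adj p q ∨ ∃ c, G.Adj p c ∧ G.Adj q c) : (shiftG G p q).Connected := by
  have hqp : (shiftG G p q).Reachable q p := by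
    rcases hd with h | ⟨c, h1, h2⟩
    · exact ((sh_pq hne).2 h).symm.reachable
    · have hcp : c ≠ p := h1.ne.symm
      have hcq : c ≠ q := h2.ne.symm
      have a1 : (shiftG G p q).Adj q c := (sh_q hne hcp hcq).2 ⟨h1, h2⟩
      have a2 : (shiftG G p q).Adj p c := (sh_p hne hcp hcq).2 (Or.inl h1)
      exact a1.reachable.trans a2.symm.reachable
  have hx : ∀ x, x ≠ p → x ≠ q → (G.Adj p x ∨ G.Adj q x) → (shiftG G p q).Reachable p x := by
    intro x hxp hxq h
    exact ((sh_p hne hxp hxq).2 h).reachable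
  have hadj : ∀ a b, G.Adj a b → (shiftG G p q).Reachable a b := by
    intro a b hab
    by_cases hap : a = p
    · subst hap
      by_cases hbq : b = q
      · subst hbq
        exact hqp.symm
      · exact hx b hab.ne.symm hbq (Or.inl hab)
    · by_cases haq : a = q
      · subst haq
        by_cases hbp : b = p
        · subst hbp
          exact hqp
        · exact hqp.trans (hx b hbp hab.ne.symm (Or.inr hab))
      · by_cases hbp : b = p
        · subst hbp
          exact (hx a hap haq (Or.inl hab.symm)).symm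
        · by_cases hbq : b = q
          · subst hbq
            exact ((hqp.trans (hx a hap haq (Or.inr hab.symm)))).symm
          · exact ((sh_o hap haq hbp hbq).2 hab).reachable
  have hall : ∀ a b, G.Reachable a b → (shiftG G p q).Reachable a b := by
    intro a b ⟨w⟩
    induction w with
    | nil => exact SimpleGraph.Reachable.refl _
    | cons h _ ih => exact (hadj _ _ h).trans ih
  have := hG.nonempty
  exact ⟨fun a b => hall a b (hG.preconnected a b)⟩

end Shift

section Count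

variable {V : Type u} [Fintype V]

theorem sum_split [DecidableEq V] {p q : V} (hne : p ≠ q) (T : V → V → ℕ) :
    ∑ a, ∑ b, T a b = (T p p + (T p q + ∑ x ∈ (Finset.univ.erase p).erase q, T p x)) +
      ((T q p + (T q q + ∑ x ∈ (Finset.univ.erase p).erase q, T q x)) +
      ∑ a ∈ (Finset.univ.erase p).erase q,
        (T a p + (T a q + ∑ b ∈ (Finset.univ.erase p).erase q, T a b))) := by
  have hq : q ∈ (Finset.univ : Finset V).erase p := Finset.mem_erase.2 ⟨hne.symm, Finset.mem_univ _⟩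
  have h : ∀ f : V → ℕ, ∑ a, f a = f p + (f q + ∑ x ∈ (Finset.univ.erase p).erase q, f x) := by
    intro f
    rw [← Finset.add_sum_erase _ _ (Finset.mem_univ p), ← Finset.add_sum_erase _ _ hq]
  rw [h (fun a => ∑ b, T a b)]
  simp only [h]

open scoped Classical in
/-- The sum of `F` over the ordered pairs of adjacent vertices. -/
noncomputable def dsum (F : V → V → ℕ) (G : SimpleGraph V) : ℕ :=
  ∑ a, ∑ b, if G.Adj a b then F a b else 0

theorem dsum_one (G : SimpleGraph V) : dsum (fun _ _ => 1) G = 2 * ecard G := by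
  classical
  unfold ecard
  rw [← SimpleGraph.coe_edgeFinset, Set.ncard_coe_finset, ← SimpleGraph.sum_degrees_eq_twice_card_edges]
  unfold dsum
  refine Finset.sum_congr rfl fun a _ => ?_
  rw [← SimpleGraph.card_neighborFinset_eq_degree, SimpleGraph.neighborFinset_eq_filter,
    Finset.card_filter]

theorem dsum_shift_eq {p q : V} (hne : p ≠ q) (G : SimpleGraph V) (F : V → V → ℕ)
    (h1 : ∀ x, x ≠ p → x ≠ q → F p x = F q x) (h2 : ∀ x, x ≠ p → x ≠ q → F x p = F x q) :
    dsum F (shiftG G p q) = dsum F G := by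
  classical
  unfold dsum
  rw [sum_split hne, sum_split hne]
  have e0 : ∀ a, (if (shiftG G p q).Adj a a then F a a else 0) =
      (if G.Adj a a then F a a else 0) := by
    intro a
    rw [if_neg (fun h => h.ne rfl), if_neg (fun h => h.ne rfl)]
  have e1 : (if (shiftG G p q).Adj p q then F p q else 0) =
      (if G.Adj p q then F p q else 0) := by
    by_cases h : G.Adj p q
    · rw [if_pos h, if_pos ((sh_pq hne).2 h)]
    · rw [if_neg h, if_neg (fun h' => h ((sh_pq hne).1 h'))]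
  have e2 : (if (shiftG G p q).Adj q p then F q p else 0) =
      (if G.Adj q p then F q p else 0) := by
    by_cases h : G.Adj q p
    · rw [if_pos h, if_pos ((sh_pq hne).2 h.symm).symm]
    · rw [if_neg h, if_neg (fun h' => h ((sh_pq hne).1 h'.symm).symm)]
  have e3 : ∑ x ∈ (Finset.univ.erase p).erase q, (if (shiftG G p q).Adj p x then F p x else 0) +
      ∑ x ∈ (Finset.univ.erase p).erase q, (if (shiftG G p q).Adj q x then F q x else 0) =
      ∑ x ∈ (Finset.univ.erase p).erase q, (if G.Adj p x then F p x else 0) +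
      ∑ x ∈ (Finset.univ.erase p).erase q, (if G.Adj q x then F q x else 0) := by
    rw [← Finset.sum_add_distrib, ← Finset.sum_add_distrib]
    refine Finset.sum_congr rfl fun x hx => ?_
    have hxq : x ≠ q := (Finset.mem_erase.1 hx).1
    have hxp : x ≠ p := (Finset.mem_erase.1 (Finset.mem_erase.1 hx).2).1
    have := h1 x hxp hxq
    simp only [sh_p hne hxp hxq, sh_q hne hxp hxq]
    by_cases a1 : G.Adj p x <;> by_cases a2 : G.Adj q x <;> simp [a1, a2, this]
  have e4 : ∑ a ∈ (Finset.univ.erase p).erase q,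
        ((if (shiftG G p q).Adj a p then F a p else 0) +
          ((if (shiftG G p q).Adj a q then F a q else 0) +
          ∑ b ∈ (Finset.univ.erase p).erase q,
            (if (shiftG G p q).Adj a b then F a b else 0))) =
      ∑ a ∈ (Finset.univ.erase p).erase q,
        ((if G.Adj a p then F a p else 0) +
          ((if G.Adj a q then F a q else 0) +
          ∑ b ∈ (Finset.univ.erase p).erase q, (if G.Adj a b then F a b else 0))) := by
    refine Finset.sum_congr rfl fun x hx => ?_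
    have hxq : x ≠ q := (Finset.mem_erase.1 hx).1
    have hxp : x ≠ p := (Finset.mem_erase.1 (Finset.mem_erase.1 hx).2).1
    have e5 : ∑ b ∈ (Finset.univ.erase p).erase q,
        (if (shiftG G p q).Adj x b then F x b else 0) =
        ∑ b ∈ (Finset.univ.erase p).erase q, (if G.Adj x b then F x b else 0) := by
      refine Finset.sum_congr rfl fun b hb => ?_
      have hbq : b ≠ q := (Finset.mem_erase.1 hb).1
      have hbp : b ≠ p := (Finset.mem_erase.1 (Finset.mem_erase.1 hb).2).1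
      simp only [sh_o hxp hxq hbp hbq]
    rw [e5]
    have := h2 x hxp hxq
    simp only [(shiftG G p q).adj_comm x p, (shiftG G p q).adj_comm x q, sh_p hne hxp hxq,
      sh_q hne hxp hxq, G.adj_comm x p, G.adj_comm x q]
    by_cases a1 : G.Adj p x <;> by_cases a2 : G.Adj q x <;> simp [a1, a2, this]
  have e0p := e0 p
  have e0q := e0 q
  omega

theorem dsum_shift_lt {p q : V} (hne : p ≠ q) (G : SimpleGraph V) (F : V → V → ℕ)
    (h1 : ∀ x, x ≠ p → x ≠ q → F p x < F q x) (h2 : ∀ x, x ≠ p → x ≠ q → F x p ≤ F x q)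
    (x0 : V) (hx0p : x0 ≠ p) (hqx : G.Adj q x0) (hpx : ¬ G.Adj p x0) :
    dsum F (shiftG G p q) < dsum F G := by
  classical
  unfold dsum
  rw [sum_split hne, sum_split hne]
  have e0 : ∀ a, (if (shiftG G p q).Adj a a then F a a else 0) =
      (if G.Adj a a then F a a else 0) := by
    intro a
    rw [if_neg (fun h => h.ne rfl), if_neg (fun h => h.ne rfl)]
  have e1 : (if (shiftG G p q).Adj p q then F p q else 0) =
      (if G.Adj p q then F p q else 0) := by
    by_cases h : G.Adj p q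
    · rw [if_pos h, if_pos ((sh_pq hne).2 h)]
    · rw [if_neg h, if_neg (fun h' => h ((sh_pq hne).1 h'))]
  have e2 : (if (shiftG G p q).Adj q p then F q p else 0) =
      (if G.Adj q p then F q p else 0) := by
    by_cases h : G.Adj q p
    · rw [if_pos h, if_pos ((sh_pq hne).2 h.symm).symm]
    · rw [if_neg h, if_neg (fun h' => h ((sh_pq hne).1 h'.symm).symm)]
  have e3 : ∑ x ∈ (Finset.univ.erase p).erase q, (if (shiftG G p q).Adj p x then F p x else 0) +
      ∑ x ∈ (Finset.univ.erase p).erase q, (if (shiftG G p q).Adj q x then F q x else 0) <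
      ∑ x ∈ (Finset.univ.erase p).erase q, (if G.Adj p x then F p x else 0) +
      ∑ x ∈ (Finset.univ.erase p).erase q, (if G.Adj q x then F q x else 0) := by
    rw [← Finset.sum_add_distrib, ← Finset.sum_add_distrib]
    refine Finset.sum_lt_sum (fun x hx => ?_) ⟨x0, ?_, ?_⟩
    · have hxq : x ≠ q := (Finset.mem_erase.1 hx).1
      have hxp : x ≠ p := (Finset.mem_erase.1 (Finset.mem_erase.1 hx).2).1
      have := (h1 x hxp hxq).le
      simp only [sh_p hne hxp hxq, sh_q hne hxp hxq]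
      by_cases a1 : G.Adj p x <;> by_cases a2 : G.Adj q x <;> simp [a1, a2, this]
    · exact Finset.mem_erase.2 ⟨hqx.ne.symm, Finset.mem_erase.2 ⟨hx0p, Finset.mem_univ _⟩⟩
    · have := h1 x0 hx0p hqx.ne.symm
      simp only [sh_p hne hx0p hqx.ne.symm, sh_q hne hx0p hqx.ne.symm]
      simp [hqx, hpx, this]
  have e4 : ∑ a ∈ (Finset.univ.erase p).erase q,
        ((if (shiftG G p q).Adj a p then F a p else 0) +
          ((if (shiftG G p q).Adj a q then F a q else 0) +
          ∑ b ∈ (Finset.univ.erase p).erase q,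
            (if (shiftG G p q).Adj a b then F a b else 0))) ≤
      ∑ a ∈ (Finset.univ.erase p).erase q,
        ((if G.Adj a p then F a p else 0) +
          ((if G.Adj a q then F a q else 0) +
          ∑ b ∈ (Finset.univ.erase p).erase q, (if G.Adj a b then F a b else 0))) := by
    refine Finset.sum_le_sum fun x hx => ?_
    have hxq : x ≠ q := (Finset.mem_erase.1 hx).1
    have hxp : x ≠ p := (Finset.mem_erase.1 (Finset.mem_erase.1 hx).2).1
    have e5 : ∑ b ∈ (Finset.univ.erase p).erase q,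
        (if (shiftG G p q).Adj x b then F x b else 0) =
        ∑ b ∈ (Finset.univ.erase p).erase q, (if G.Adj x b then F x b else 0) := by
      refine Finset.sum_congr rfl fun b hb => ?_
      have hbq : b ≠ q := (Finset.mem_erase.1 hb).1
      have hbp : b ≠ p := (Finset.mem_erase.1 (Finset.mem_erase.1 hb).2).1
      simp only [sh_o hxp hxq hbp hbq]
    rw [e5]
    have := h2 x hxp hxq
    simp only [(shiftG G p q).adj_comm x p, (shiftG G p q).adj_comm x q, sh_p hne hxp hxq,
      sh_q hne hxp hxq, G.adj_comm x p, G.adj_comm x q]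
    by_cases a1 : G.Adj p x <;> by_cases a2 : G.Adj q x <;> simp [a1, a2, this]
  have e0p := e0 p
  have e0q := e0 q
  omega


/-- Shifted representative of a connected graph. -/
theorem exists_shifted {n : ℕ} {z : ℝ} (hz : 0 ≤ z) (G : SimpleGraph (Fin n)) (hG : G.Connected) :
    ∃ H : SimpleGraph (Fin n), H.Connected ∧ ecard H = ecard G ∧ Zg z H ≤ Zg z G ∧
      (∀ p x : Fin n, (p : ℕ) = 0 → x ≠ p → H.Adj p x) ∧
      (∀ p q : Fin n, p < q → ∀ x, x ≠ p → H.Adj q x → H.Adj p x) := by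
  classical
  let F : Fin n → Fin n → ℕ := fun a b => (a : ℕ) + (b : ℕ)
  let S : Finset (SimpleGraph (Fin n)) := Finset.univ.filter
    (fun H => H.Connected ∧ ecard H = ecard G ∧ Zg z H ≤ Zg z G)
  have hS : S.Nonempty := ⟨G, Finset.mem_filter.2 ⟨Finset.mem_univ _, hG, rfl, le_refl _⟩⟩
  obtain ⟨H, hHS, hmin⟩ := Finset.exists_min_image S (dsum F) hS
  obtain ⟨hHc, hHe, hHz⟩ := (Finset.mem_filter.1 hHS).2
  have key : ∀ p q : Fin n, p < q → (H.Adj p q ∨ ∃ c, H.Adj p c ∧ H.Adj q c) →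
      ∀ x, x ≠ p → H.Adj q x → H.Adj p x := by
    intro p q hpq hd x hxp hqx
    by_contra hpx
    have hne : p ≠ q := hpq.ne
    have hlt := dsum_shift_lt hne H F (fun x _ _ => by
      show (p : ℕ) + (x : ℕ) < (q : ℕ) + (x : ℕ)
      have : (p : ℕ) < (q : ℕ) := hpq
      omega) (fun x _ _ => by
      show (x : ℕ) + (p : ℕ) ≤ (x : ℕ) + (q : ℕ)
      have : (p : ℕ) < (q : ℕ) := hpq
      omega) x hxp hqx hpx
    have hmem : shiftG H p q ∈ S := by
      refine Finset.mem_filter.2 ⟨Finset.mem_univ _, shift_connected hne hHc hd, ?_,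
        (Zg_shift hz hne).trans hHz⟩
      have h2 := dsum_shift_eq hne H (fun _ _ => 1) (fun _ _ _ => rfl) (fun _ _ _ => rfl)
      rw [dsum_one, dsum_one] at h2
      omega
    have := hmin _ hmem
    omega
  have hzero : ∀ p x : Fin n, (p : ℕ) = 0 → x ≠ p → H.Adj p x := by
    intro p x hp hx
    have hlt : ∀ a : Fin n, a ≠ p → p < a := by
      intro a ha
      have : (a : ℕ) ≠ 0 := fun h => ha (Fin.ext (by omega))
      show (p : ℕ) < (a : ℕ)
      omega
    have hP : ∀ a b, H.Reachable a b → (a = p ∨ H.Adj p a) → (b = p ∨ H.Adj p b) := by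
      intro a b ⟨w⟩
      induction w with
      | nil => exact fun h => h
      | cons hadj _ ih =>
        intro h
        apply ih
        rename_i u v _ _
        rcases h with h | h
        · rw [h] at hadj
          exact Or.inr hadj
        · by_cases hv : v = p
          · exact Or.inl hv
          · right
            have hup : u ≠ p := h.ne.symm
            exact key p u (hlt u hup) (Or.inl h) v hv hadj
    rcases hP p x (hHc.preconnected p x) (Or.inl rfl) with h | h
    · exact absurd h hx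
    · exact h
  refine ⟨H, hHc, hHe, hHz, hzero, ?_⟩
  intro p q hpq x hxp hqx
  by_cases hp : (p : ℕ) = 0
  · exact hzero p x hp hxp
  · have hn : 0 < n := lt_of_le_of_lt (Nat.zero_le _) p.2
    have hp0 : p ≠ ⟨0, hn⟩ := fun h => hp (by rw [h])
    have hq0 : q ≠ ⟨0, hn⟩ := by
      rintro rfl
      have : (p : ℕ) < 0 := hpq
      omega
    exact key p q hpq (Or.inr ⟨⟨0, hn⟩, (hzero ⟨0, hn⟩ p rfl hp0).symm,
      (hzero ⟨0, hn⟩ q rfl hq0).symm⟩) x hxp hqx

end Count

end Pool.Agent.MP_91840b_co
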