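import Mathlib
import Pool.Agent.Lib.MP_91840b_co.Graph

/-!
Comparison of the contracted graphs in the dense range.
-/

namespace Pool.Agent.MP_91840b_co

open Finset

universe u

variable {V : Type u} [Fintype V]

open scoped Classical in
/-- The weights of `X` with the edges from `v` to `W` doubled. -/
noncomputable def mu (z : ℝ) (X : SimpleGraph V) (v : V) (W : Finset V) : Sym2 V → ℝ :=
  Sym2.lift ⟨fun x y => if X.Adj x y then
      (if (x = v ∧ y ∈ W) ∨ (y = v ∧ x ∈ W) then (1 + z) ^ 2 - 1 else z) else 0, by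
    intro x y
    simp only [X.adj_comm x y, or_comm (a := (x = v ∧ y ∈ W))]⟩

omit [Fintype V] in
open scoped Classical in
theorem mu_mk (z : ℝ) (X : SimpleGraph V) (v : V) (W : Finset V) (x y : V) :
    mu z X v W s(x, y) = if X.Adj x y then
      (if (x = v ∧ y ∈ W) ∨ (y = v ∧ x ∈ W) then (1 + z) ^ 2 - 1 else z) else 0 := rfl

theorem mu_nonneg {z : ℝ} (hz : 0 ≤ z) (X : SimpleGraph V) (v : V) (W : Finset V)
    (s : Sym2 V) : 0 ≤ mu z X v W s := by
  induction s using Sym2.ind with
  | _ x y =>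
    rw [mu_mk]
    split_ifs
    · nlinarith
    · exact hz
    · exact le_refl 0

theorem mu_not {z : ℝ} {X : SimpleGraph V} {v : V} {W : Finset V} {x y : V}
    (h : ¬ X.Adj x y) : mu z X v W s(x, y) = 0 := by
  rw [mu_mk, if_neg h]

theorem mu_double {z : ℝ} {X : SimpleGraph V} {v : V} {W : Finset V} {x : V}
    (h : X.Adj v x) (hx : x ∈ W) : mu z X v W s(v, x) = (1 + z) ^ 2 - 1 := by
  rw [mu_mk, if_pos h, if_pos (Or.inl ⟨rfl, hx⟩)]

theorem mu_single_v {z : ℝ} {X : SimpleGraph V} {v : V} {W : Finset V} {x : V}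
    (h : X.Adj v x) (hx : x ∉ W) : mu z X v W s(v, x) = z := by
  rw [mu_mk, if_pos h, if_neg]
  rintro (⟨_, h1⟩ | ⟨h1, _⟩)
  · exact hx h1
  · exact h.ne h1.symm

theorem mu_other {z : ℝ} {X : SimpleGraph V} {v : V} {W : Finset V} {x y : V}
    (hx : x ≠ v) (hy : y ≠ v) : mu z X v W s(x, y) = gw z X s(x, y) := by
  rw [mu_mk]
  by_cases h : X.Adj x y
  · rw [gw_adj h, if_pos h, if_neg]
    rintro (⟨h1, _⟩ | ⟨h1, _⟩)
    · exact hx h1
    · exact hy h1
  · rw [gw_not_adj h, if_neg h]

theorem mu_congr {z : ℝ} {X : SimpleGraph V} {v : V} {W W' : Finset V} {x : V}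
    (h : x ∈ W ↔ x ∈ W') : mu z X v W s(v, x) = mu z X v W' s(v, x) := by
  by_cases hA : X.Adj v x
  · by_cases hx : x ∈ W
    · rw [mu_double hA hx, mu_double hA (h.1 hx)]
    · rw [mu_single_v hA hx, mu_single_v hA (fun h' => hx (h.2 h'))]
  · rw [mu_not hA, mu_not hA]

omit [Fintype V] in
theorem gw_addE_of_ne {z : ℝ} (X : SimpleGraph V) {u v x y : V} (h : u ≠ v)
    (hne : s(x, y) ≠ s(u, v)) : gw z (addE X u v) s(x, y) = gw z X s(x, y) :=
  (gw_addE X h).2 _ hne

theorem mu_addE_v {z : ℝ} (X : SimpleGraph V) {u u' v x : V} (W : Finset V) (h : u ≠ u')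
    (hne : s(v, x) ≠ s(u, u')) :
    mu z (addE X u u') v W s(v, x) = mu z X v W s(v, x) := by
  have hiff : (addE X u u').Adj v x ↔ X.Adj v x := by
    rw [addE_adj X h]
    exact ⟨fun h' => h'.resolve_left hne, Or.inr⟩
  by_cases hA : X.Adj v x
  · by_cases hx : x ∈ W
    · rw [mu_double hA hx, mu_double (hiff.2 hA) hx]
    · rw [mu_single_v hA hx, mu_single_v (hiff.2 hA) hx]
  · rw [mu_not hA, mu_not (fun h' => hA (hiff.1 h'))]

/-- First move: replace a missing edge at `v` by a doubled one. -/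
theorem star_move1 {z : ℝ} (hz : 0 < z) (X : SimpleGraph V) (v w x' : V) (W1 : Finset V)
    (hv1 : v ∉ W1) (hw1 : w ∉ W1) (hwv : w ≠ v) (hx'v : x' ≠ v) (hx'w : x' ≠ w)
    (hx'1 : x' ∉ W1)
    (hdom : ∀ x, x ≠ w → X.Adj w x) (hn : ¬ X.Adj v x') (W : Finset V)
    (hW : ∀ x, x ∈ W ↔ x = w ∨ x ∈ W1) :
    Z (mu z X v W) ≤ Z (mu z (addE X v x') v W1) := by
  have hDz : z ≤ (1 + z) ^ 2 - 1 := by nlinarith
  have hww : w ∈ W := (hW w).2 (Or.inl rfl)
  have hvx' : v ≠ x' := hx'v.symm
  have a1 : (addE X v x').Adj v x' := (addE_adj X hvx' v x').2 (Or.inl rfl)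
  have a2 : X.Adj v w := (hdom v hwv.symm).symm
  have a3 : (addE X v x').Adj v w := le_addE X v x' a2
  refine kelmans w x' hx'w.symm _ _ (mu_nonneg hz.le _ _ _) (mu_nonneg hz.le _ _ _)
    ?_ ?_ ?_ ?_ ?_
  · intro x y hxw hxx' hyw hyx' hxy
    by_cases hx : x = v
    · subst hx
      rw [mu_addE_v X W1 hvx' (by
        intro h
        rw [Sym2.eq_iff] at h
        rcases h with ⟨_, h⟩ | ⟨h, _⟩
        · exact hyx' h
        · exact hxx' h)]
      refine mu_congr ?_
      rw [hW]
      exact ⟨fun h => h.resolve_left hyw, Or.inr⟩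
    · by_cases hy : y = v
      · subst hy
        rw [Sym2.eq_swap, mu_addE_v X W1 hvx' (by
          intro h
          rw [Sym2.eq_iff] at h
          rcases h with ⟨_, h⟩ | ⟨h, _⟩
          · exact hxx' h
          · exact hyx' h)]
        refine mu_congr ?_
        rw [hW]
        exact ⟨fun h => h.resolve_left hxw, Or.inr⟩
      · rw [mu_other hx hy, mu_other hx hy, gw_addE_of_ne X hvx']
        intro h
        rw [Sym2.eq_iff] at h
        rcases h with ⟨h, _⟩ | ⟨_, h⟩
        · exact hx h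
        · exact hy h
  · rw [mu_other hwv hx'v, mu_other hwv hx'v, gw_addE_of_ne X hvx']
    intro h
    rw [Sym2.eq_iff] at h
    rcases h with ⟨h, _⟩ | ⟨h, _⟩
    · exact hwv h
    · exact hx'w h.symm
  · intro x hxw hxx'
    by_cases hx : x = v
    · subst hx
      rw [Sym2.eq_swap (a := w), Sym2.eq_swap (a := x'), mu_double a2 hww, mu_not hn,
        mu_single_v a3 hw1, mu_single_v a1 hx'1]
      ring
    · rw [mu_other hwv hx, mu_other hx'v hx, mu_other hwv hx, mu_other hx'v hx,
        gw_addE_of_ne X hvx', gw_addE_of_ne X hvx']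
      · intro h
        rw [Sym2.eq_iff] at h
        rcases h with ⟨h, _⟩ | ⟨_, h⟩
        · exact hx'v h
        · exact hx h
      · intro h
        rw [Sym2.eq_iff] at h
        rcases h with ⟨h, _⟩ | ⟨_, h⟩
        · exact hwv h
        · exact hx h
  · intro x hxw hxx'
    by_cases hx : x = v
    · subst hx
      rw [Sym2.eq_swap (a := w), mu_double a2 hww, mu_single_v a3 hw1]
      exact hDz
    · rw [mu_other hwv hx, mu_other hwv hx, gw_adj (hdom x hxw)]
      exact gw_le hz.le _ _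
  · intro x hxw hxx'
    by_cases hx : x = v
    · subst hx
      rw [Sym2.eq_swap (a := w), Sym2.eq_swap (a := x'), mu_double a2 hww, mu_single_v a1 hx'1]
      exact hDz
    · rw [mu_other hwv hx, mu_other hx'v hx, gw_adj (hdom x hxw)]
      exact gw_le hz.le _ _

/-- Second move, first half: replace a missing edge `x x'` by a doubled edge `v x'`. -/
theorem star_move2 {z : ℝ} (hz : 0 < z) (X : SimpleGraph V) (v x x' : V) (W1 : Finset V)
    (hxv : x ≠ v) (hx'v : x' ≠ v) (hxx' : x ≠ x') (hx1 : x ∉ W1) (hx'1 : x' ∉ W1)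
    (hdom : ∀ b, b ≠ v → X.Adj v b) (hn : ¬ X.Adj x x') (W' : Finset V)
    (hW : ∀ b, b ∈ W' ↔ b = x' ∨ b ∈ W1) :
    Z (mu z X v W') ≤ Z (mu z (addE X x x') v W1) := by
  have hDz : z ≤ (1 + z) ^ 2 - 1 := by nlinarith
  have hx'W : x' ∈ W' := (hW x').2 (Or.inl rfl)
  have hxW : x ∉ W' := by
    rw [hW]
    rintro (h | h)
    · exact hxx' h
    · exact hx1 h
  have hne1 : ∀ b, s(v, b) ≠ s(x, x') := by
    intro b h
    rw [Sym2.eq_iff] at h
    rcases h with ⟨h, _⟩ | ⟨h, _⟩
    · exact hxv h.symm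
    · exact hx'v h.symm
  refine kelmans v x hxv.symm _ _ (mu_nonneg hz.le _ _ _) (mu_nonneg hz.le _ _ _)
    ?_ ?_ ?_ ?_ ?_
  · intro a b hav hax hbv hbx hab
    rw [mu_other hav hbv, mu_other hav hbv, gw_addE_of_ne X hxx']
    intro h
    rw [Sym2.eq_iff] at h
    rcases h with ⟨h, _⟩ | ⟨_, h⟩
    · exact hax h
    · exact hbx h
  · rw [mu_addE_v X W1 hxx' (hne1 x)]
    exact mu_congr ⟨fun h => absurd h hxW, fun h => absurd h hx1⟩
  · intro b hbv hbx
    by_cases hb : b = x'
    · subst hb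
      rw [mu_addE_v X W1 hxx' (hne1 b), mu_double (hdom b hbv) hx'W,
        mu_single_v (hdom b hbv) hx'1, mu_other hxv hbv, mu_other hxv hbv, gw_not_adj hn,
        gw_adj ((addE_adj X hxx' x b).2 (Or.inl rfl))]
      ring
    · rw [mu_addE_v X W1 hxx' (hne1 b), mu_other hxv hbv, mu_other hxv hbv,
        gw_addE_of_ne X hxx']
      · congr 1
        congr 1
        refine mu_congr ?_
        rw [hW]
        exact ⟨fun h => h.resolve_left hb, Or.inr⟩
      · intro h
        rw [Sym2.eq_iff] at h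
        rcases h with ⟨_, h⟩ | ⟨h, _⟩
        · exact hb h
        · exact hxx' h
  · intro b hbv hbx
    rw [mu_addE_v X W1 hxx' (hne1 b)]
    by_cases hb : b = x'
    · subst hb
      rw [mu_double (hdom b hbv) hx'W, mu_single_v (hdom b hbv) hx'1]
      exact hDz
    · refine le_of_eq (mu_congr ?_)
      rw [hW]
      exact ⟨Or.inr, fun h => h.resolve_left hb⟩
  · intro b hbv hbx
    rw [mu_other hxv hbv]
    refine le_trans (gw_le hz.le _ _) ?_
    rw [mu_mk, if_pos (hdom b hbv)]
    split_ifs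
    · exact hDz
    · exact le_refl z

/-- Second move, second half: swap the roles of `x'` and `w`. -/
theorem star_move3 {z : ℝ} (hz : 0 < z) (X : SimpleGraph V) (v w x' : V) (W1 : Finset V)
    (hwv : w ≠ v) (hx'v : x' ≠ v) (hx'w : x' ≠ w) (hw1 : w ∉ W1) (hx'1 : x' ∉ W1)
    (hdom : ∀ x, x ≠ w → X.Adj w x) (hvx : X.Adj v x') (W W' : Finset V)
    (hW : ∀ b, b ∈ W ↔ b = w ∨ b ∈ W1) (hW' : ∀ b, b ∈ W' ↔ b = x' ∨ b ∈ W1) :
    Z (mu z X v W) ≤ Z (mu z X v W') := by
  have hDz : z ≤ (1 + z) ^ 2 - 1 := by nlinarith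
  have hvw : X.Adj v w := (hdom v hwv.symm).symm
  have hwW : w ∈ W := (hW w).2 (Or.inl rfl)
  have hwW' : w ∉ W' := by
    rw [hW']
    rintro (h | h)
    · exact hx'w h.symm
    · exact hw1 h
  have hx'W' : x' ∈ W' := (hW' x').2 (Or.inl rfl)
  have hx'W : x' ∉ W := by
    rw [hW]
    rintro (h | h)
    · exact hx'w h
    · exact hx'1 h
  have hiff : ∀ b, b ≠ w → b ≠ x' → (b ∈ W ↔ b ∈ W') := by
    intro b h1 h2
    rw [hW, hW']
    exact ⟨fun h => Or.inr (h.resolve_left h1), fun h => Or.inr (h.resolve_left h2)⟩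
  refine kelmans w x' hx'w.symm _ _ (mu_nonneg hz.le _ _ _) (mu_nonneg hz.le _ _ _)
    ?_ ?_ ?_ ?_ ?_
  · intro a b haw hax hbw hbx hab
    by_cases ha : a = v
    · subst ha
      exact mu_congr (hiff b hbw hbx)
    · by_cases hb : b = v
      · subst hb
        rw [Sym2.eq_swap]
        exact mu_congr (hiff a haw hax)
      · rw [mu_other ha hb, mu_other ha hb]
  · rw [mu_other hwv hx'v, mu_other hwv hx'v]
  · intro b hbw hbx
    by_cases hb : b = v
    · subst hb
      rw [Sym2.eq_swap (a := w), Sym2.eq_swap (a := x'), mu_double hvw hwW,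
        mu_single_v hvx hx'W, mu_single_v hvw hwW', mu_double hvx hx'W']
      ring
    · rw [mu_other hwv hb, mu_other hwv hb, mu_other hx'v hb, mu_other hx'v hb]
  · intro b hbw hbx
    by_cases hb : b = v
    · subst hb
      rw [Sym2.eq_swap (a := w), mu_double hvw hwW, mu_single_v hvw hwW']
      exact hDz
    · rw [mu_other hwv hb, mu_other hwv hb]
  · intro b hbw hbx
    by_cases hb : b = v
    · subst hb
      rw [Sym2.eq_swap (a := w), Sym2.eq_swap (a := x'), mu_double hvw hwW,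
        mu_double hvx hx'W']
    · rw [mu_other hwv hb, mu_other hx'v hb, gw_adj (hdom b hbw)]
      exact gw_le hz.le _ _

/-- Comparison with the complete graph. -/
theorem star {z : ℝ} (hz : 0 < z) (v : V) (A : Finset V) : ∀ (i : ℕ) (X : SimpleGraph V)
    (W : Finset V), ecard X + i = (Fintype.card V).choose 2 → v ∉ W →
    (∀ w ∈ W, ∀ x, x ≠ w → X.Adj w x) → A ⊆ W → W.card = A.card + i →
    Z (mu z X v W) ≤ Z (mu z ⊤ v A) := by
  classical
  intro i
  induction i with
  | zero =>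
    intro X W hX hv hdom hA hcard
    have h1 : X = ⊤ := eq_of_ecard_le le_top (by rw [ecard_top]; omega)
    have h2 : A = W := Finset.eq_of_subset_of_card_le hA (by omega)
    rw [h1, h2]
  | succ i ih =>
    intro X W hX hv hdom hA hcard
    obtain ⟨w, hwW, hwA⟩ : ∃ w ∈ W, w ∉ A := by
      by_contra hcon
      push Not at hcon
      have := Finset.card_le_card (s := W) (t := A) hcon
      omega
    have hwv : w ≠ v := by
      rintro rfl
      exact hv hwW
    set W1 := W.erase w with hW1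
    have hW : ∀ x, x ∈ W ↔ x = w ∨ x ∈ W1 := by
      intro x
      rw [hW1, Finset.mem_erase]
      constructor
      · intro h
        by_cases hx : x = w
        · exact Or.inl hx
        · exact Or.inr ⟨hx, h⟩
      · rintro (rfl | h)
        · exact hwW
        · exact h.2
    have hw1 : w ∉ W1 := Finset.notMem_erase w W
    have hv1 : v ∉ W1 := fun h => hv (Finset.mem_of_mem_erase h)
    have hA1 : A ⊆ W1 := by
      intro x hx
      rw [hW1, Finset.mem_erase]
      exact ⟨fun h => hwA (h ▸ hx), hA hx⟩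
    have hcard1 : W1.card = A.card + i := by
      rw [hW1, Finset.card_erase_of_mem hwW]
      omega
    by_cases hcase : ∃ x', x' ≠ v ∧ ¬ X.Adj v x'
    · obtain ⟨x', hx'v, hn⟩ := hcase
      have hx'W : x' ∉ W := fun h => hn (hdom x' h v hx'v.symm).symm
      have hx'w : x' ≠ w := fun h => hx'W (h ▸ hwW)
      have h1 := star_move1 hz X v w x' W1 hv1 hw1 hwv hx'v hx'w
        (fun h => hx'W (Finset.mem_of_mem_erase h)) (hdom w hwW) hn W hW
      refine h1.trans (ih (addE X v x') W1 ?_ hv1 ?_ hA1 hcard1)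
      · rw [ecard_addE X hx'v.symm hn]
        omega
      · intro w' hw' x hx
        exact le_addE X v x' (hdom w' (Finset.mem_of_mem_erase hw') x hx)
    · push Not at hcase
      obtain ⟨x, x', hxx', _, hn⟩ := exists_not_adj (G := X) (H := ⊤) le_top
        (by rw [ecard_top]; omega)
      have hxv : x ≠ v := by
        rintro rfl
        exact hn (hcase x' hxx'.symm)
      have hx'v : x' ≠ v := by
        rintro rfl
        exact hn (hcase x hxx').symm
      have hxW : x ∉ W := fun h => hn (hdom x h x' hxx'.symm)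
      have hx'W : x' ∉ W := fun h => hn (hdom x' h x hxx').symm
      have hx'w : x' ≠ w := fun h => hx'W (h ▸ hwW)
      have hx1 : x ∉ W1 := fun h => hxW (Finset.mem_of_mem_erase h)
      have hx'1 : x' ∉ W1 := fun h => hx'W (Finset.mem_of_mem_erase h)
      have hins : ∀ b, b ∈ insert x' W1 ↔ b = x' ∨ b ∈ W1 := fun b => Finset.mem_insert
      have h1 := star_move3 hz X v w x' W1 hwv hx'v hx'w hw1 hx'1 (hdom w hwW)
        (hcase x' hx'v) W (insert x' W1) hW hins
      have h2 := star_move2 hz X v x x' W1 hxv hx'v hxx' hx1 hx'1 hcase hn (insert x' W1) hins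
      refine h1.trans (h2.trans (ih (addE X x x') W1 ?_ hv1 ?_ hA1 hcard1))
      · rw [ecard_addE X hxx' hn]
        omega
      · intro w' hw' y hy
        exact le_addE X x x' (hdom w' (Finset.mem_of_mem_erase hw') y hy)

end Pool.Agent.MP_91840b_co
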