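import Mathlib
import Pool.Agent.Lib.MP_91840b_co.Star
import Pool.Agent.Lib.MP_91840b_co.Shift

/-!
The dense range, and the graphs `K_s` plus a vertex.
-/

namespace Pool.Agent.MP_91840b_co

open Finset

universe u

section Transport

variable {V : Type u} {V' : Type*} [Fintype V] [Fintype V']

theorem Zg_comap (z : ℝ) (e : V ≃ V') (H : SimpleGraph V') : Zg z (H.comap e) = Zg z H := by
  unfold Zg
  rw [← Z_equiv e (gw z H)]
  congr 1
  funext s
  induction s using Sym2.ind with
  | _ x y =>
    by_cases h : H.Adj (e x) (e y)
    · rw [gw_adj (G := H.comap e) (x := x) (y := y) h]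
      exact (gw_adj h).symm
    · rw [gw_not_adj (G := H.comap e) (x := x) (y := y) h]
      exact (gw_not_adj h).symm

theorem wt_const (c : ℝ) (H : SimpleGraph V) : wt (fun _ => c) H = c ^ ecard H := by
  classical
  unfold wt ecard
  rw [Finset.prod_const]
  congr 1
  rw [← Set.ncard_coe_finset]
  congr 1
  ext s
  simp

theorem ecard_comap (e : V ≃ V') (H : SimpleGraph V') : ecard (H.comap e) = ecard H := by
  have h := wt_equiv e (fun _ => (2 : ℝ)) (H.comap e)
  have h2 : e.simpleGraph (H.comap e) = H := e.simpleGraph.right_inv H
  rw [h2, wt_const, wt_const] at h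
  exact pow_right_injective₀ (by norm_num) (by norm_num) h

open scoped Classical in
theorem ecard_ext (X : SimpleGraph V) (S : V → Bool) :
    ecard (ext X S) = ecard X + (Finset.univ.filter (fun x => S x = true)).card := by
  have h := wt_ext (fun _ => (2 : ℝ)) X S
  rw [wt_const, wt_const, ← Finset.prod_filter, Finset.prod_const, ← pow_add] at h
  exact pow_right_injective₀ (by norm_num) (by norm_num) h

end Transport

section Contract

variable {V : Type u} [Fintype V]

open scoped Classical in
/-- Adding the edge from the new vertex to `v0`. -/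
theorem contract_ext {z : ℝ} (X : SimpleGraph V) (S S' : V → Bool) (v0 : V)
    (hS : S v0 = false) (hS' : ∀ x, S' x = true ↔ S x = true ∨ x = v0)
    (hdom : ∀ w, S w = true → X.Adj v0 w) :
    Zg z (ext X S') = Zg z (ext X S) +
      z * Z (mu z X v0 (Finset.univ.filter (fun x => S x = true))) := by
  unfold Zg
  refine contract v0 _ _ _ ?_ ?_ z ?_ ?_ ?_
  · intro x y hx hy _
    rw [mu_other hx hy]
    exact (gw_ext_some X S s(x, y)).symm
  · intro x hx
    have h2 : gw z (ext X S) s(some v0, some x) = gw z X s(v0, x) := gw_ext_some X S s(v0, x)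
    rw [h2]
    by_cases hSx : S x = true
    · rw [mu_double (hdom x hSx) (Finset.mem_filter.2 ⟨Finset.mem_univ _, hSx⟩),
        gw_adj (G := ext X S) (x := none) (y := some x) hSx, gw_adj (hdom x hSx)]
      ring
    · rw [gw_not_adj (G := ext X S) (x := none) (y := some x) hSx]
      by_cases hA : X.Adj v0 x
      · rw [mu_single_v hA (fun h => hSx (Finset.mem_filter.1 h).2), gw_adj hA]
        ring
      · rw [mu_not hA, gw_not_adj hA]
        ring
  · exact gw_not_adj (G := ext X S) (x := none) (y := some v0) (by
      intro h
      have : S v0 = true := h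
      rw [hS] at this
      exact absurd this (by simp))
  · exact gw_adj (G := ext X S') (x := none) (y := some v0) ((hS' v0).2 (Or.inr rfl))
  · intro s hs
    have hSS' : ∀ x, x ≠ v0 → (S' x = true ↔ S x = true) := by
      intro x hx
      rw [hS']
      exact ⟨fun h => h.resolve_right hx, Or.inl⟩
    induction s using Sym2.ind with
    | _ a b =>
      have hiff : (ext X S').Adj a b ↔ (ext X S).Adj a b := by
        rcases a with _ | a <;> rcases b with _ | b
        · exact Iff.rfl
        · exact hSS' b (fun h => hs (by rw [h]))
        · exact hSS' a (fun h => hs (by rw [h, Sym2.eq_swap]))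
        · exact Iff.rfl
      by_cases h : (ext X S).Adj a b
      · rw [gw_adj h, gw_adj (hiff.2 h)]
      · rw [gw_not_adj h, gw_not_adj (fun h' => h (hiff.1 h'))]

/-- Relabelling in the complete graph. -/
theorem mu_top_swap (z : ℝ) (v v' : V) (A : Finset V) (hv : v ∉ A) (hv' : v' ∉ A) :
    Z (mu z ⊤ v A) = Z (mu z ⊤ v' A) := by
  classical
  rw [← Z_equiv (Equiv.swap v v') (mu z ⊤ v' A)]
  congr 1
  funext s
  induction s using Sym2.ind with
  | _ x y =>
    rw [Sym2.map_mk, mu_mk, mu_mk]
    have h1 : ∀ x, (Equiv.swap v v' x = v' ↔ x = v) := by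
      intro x
      constructor
      · intro h
        exact (Equiv.swap v v').injective (h.trans (Equiv.swap_apply_left v v').symm)
      · rintro rfl
        simp
    have h2 : ∀ x, (Equiv.swap v v' x ∈ A ↔ x ∈ A) := by
      intro x
      by_cases hx : x = v
      · subst hx
        simp [hv, hv']
      · by_cases hx' : x = v'
        · subst hx'
          simp [hv, hv']
        · rw [Equiv.swap_apply_of_ne_of_ne hx hx']
    simp only [h1, h2, SimpleGraph.top_adj, ne_eq, EmbeddingLike.apply_eq_iff_eq]

end Contract

/-- The graph sum of `K_s` with one further vertex joined to `k` vertices. -/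
noncomputable def zeta (z : ℝ) (s k : ℕ) : ℝ :=
  Zg z (ext (⊤ : SimpleGraph (Fin s)) (fun x => decide ((x : ℕ) < k)))

/-- An initial segment of `Fin N` is determined by its size. -/
theorem initial_segment {N : ℕ} (T : Finset (Fin N)) (h : ∀ x y : Fin N, x < y → y ∈ T → x ∈ T)
    (x : Fin N) : x ∈ T ↔ (x : ℕ) < T.card := by
  constructor
  · intro hx
    have hsub : Finset.Iic x ⊆ T := by
      intro y hy
      rw [Finset.mem_Iic] at hy
      rcases lt_or_eq_of_le hy with h1 | h1
      · exact h y x h1 hx
      · rw [h1]; exact hx
    have := Finset.card_le_card hsub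
    rw [Fin.card_Iic] at this
    omega
  · intro hx
    by_contra hxT
    have hsub : T ⊆ Finset.Iio x := by
      intro y hy
      rw [Finset.mem_Iio]
      by_contra hyx
      rw [not_lt] at hyx
      rcases lt_or_eq_of_le hyx with h1 | h1
      · exact hxT (h x y h1 hy)
      · rw [h1] at hxT; exact hxT hy
    have := Finset.card_le_card hsub
    rw [Fin.card_Iio] at this
    omega

/-- Splitting off the last vertex. -/
theorem split_last {N : ℕ} (H : SimpleGraph (Fin (N + 1))) : ∃ (X : SimpleGraph (Fin N))
    (S : Fin N → Bool), (∀ x y, X.Adj x y ↔ H.Adj x.castSucc y.castSucc) ∧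
      (∀ x, S x = true ↔ H.Adj (Fin.last N) x.castSucc) ∧
      ext X S = H.comap finSuccEquivLast.symm := by
  classical
  refine ⟨H.comap Fin.castSucc, fun x => decide (H.Adj (Fin.last N) x.castSucc),
    fun x y => Iff.rfl, fun x => by simp, ?_⟩
  ext a b
  rcases a with _ | a <;> rcases b with _ | b
  · simp
  · simp
  · simp [H.adj_comm]
  · simp

theorem connected_comap {V V' : Type*} (e : V ≃ V') (H : SimpleGraph V') :
    (H.comap e).Connected ↔ H.Connected := by
  have iso : H.comap e ≃g H := ⟨e, by intro a b; simp⟩
  exact iso.connected_iff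

/-- The dense range. -/
theorem dense {z : ℝ} (hz : 0 < z) (N : ℕ) : ∀ h, h + 1 ≤ N → ∀ G : SimpleGraph (Fin (N + 1)),
    G.Connected → ecard G + h = (N + 1).choose 2 → zeta z N (N - h) ≤ Zg z G := by
  classical
  intro h
  induction h with
  | zero =>
    intro hN G hG hc
    have hG' : G = ⊤ := eq_of_ecard_le le_top (by rw [ecard_top, Fintype.card_fin]; omega)
    obtain ⟨X, S, hX, hS, hext⟩ := split_last G
    have h1 : Zg z (ext X S) = Zg z G := by rw [hext, Zg_comap]
    rw [← h1]
    unfold zeta
    refine le_of_eq ?_
    congr 2
    · ext x y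
      rw [hX, hG']
      simp
    · funext x
      have a1 : S x = true := by
        rw [hS, hG', SimpleGraph.top_adj]
        exact (Fin.castSucc_lt_last x).ne'
      rw [a1]
      simp
  | succ h ih =>
    intro hN G hG hc
    obtain ⟨H, hHc, hHe, hHz, h0, hsh⟩ := exists_shifted hz.le G hG
    refine le_trans ?_ hHz
    obtain ⟨X, S, hX, hS, hext⟩ := split_last H
    have hZ : Zg z (ext X S) = Zg z H := by rw [hext, Zg_comap]
    have hE : ecard (ext X S) = ecard H := by rw [hext, ecard_comap]
    have hC : (ext X S).Connected := by rw [hext, connected_comap]; exact hHc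
    rw [← hZ]
    set W : Finset (Fin N) := Finset.univ.filter (fun x => S x = true) with hW
    have hmemW : ∀ x, x ∈ W ↔ S x = true := fun x => by simp [hW]
    have hdom : ∀ w ∈ W, ∀ x, x ≠ w → X.Adj w x := by
      intro w hw x hxw
      have h1 := (hS w).1 ((hmemW w).1 hw)
      have h2 := hsh x.castSucc (Fin.last N) (Fin.castSucc_lt_last x) w.castSucc
        (fun h => hxw (Fin.castSucc_injective N h).symm) h1
      exact ((hX x w).2 h2).symm
    have hinit : ∀ x y : Fin N, x < y → y ∈ W → x ∈ W := by
      intro x y hxy hy
      have h1 := (hS y).1 ((hmemW y).1 hy)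
      rw [hmemW, hS]
      exact (hsh x.castSucc y.castSucc hxy (Fin.last N) (Fin.castSucc_lt_last x).ne' h1.symm).symm
    have hec : ecard H = ecard X + W.card := by
      rw [← hE, ecard_ext]
    have hchoose : (N + 1).choose 2 = N.choose 2 + N := by
      rw [Nat.choose_succ_succ' N 1, Nat.choose_one_right, add_comm]
    have hXle : ecard X ≤ N.choose 2 := by
      have := ecard_le_choose X
      rwa [Fintype.card_fin] at this
    have hWN : W.card ≤ N := by
      have := Finset.card_le_univ W
      rwa [Fintype.card_fin] at this
    obtain ⟨i, hi⟩ : ∃ i, ecard X + i = N.choose 2 := ⟨N.choose 2 - ecard X, by omega⟩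
    have hd : W.card = (N - (h + 1)) + i := by omega
    rcases Nat.eq_zero_or_pos i with hi0 | hi0
    · have hXtop : X = ⊤ := eq_of_ecard_le le_top (by rw [ecard_top, Fintype.card_fin]; omega)
      refine le_of_eq ?_
      unfold zeta
      congr 2
      · exact hXtop.symm
      · funext x
        have h1 := initial_segment W hinit x
        rw [hmemW, hd, hi0, add_zero] at h1
        rw [Bool.eq_iff_iff, h1]
        simp
    · obtain ⟨v0, x', hne, _, hn⟩ := exists_not_adj (G := X) (H := ⊤) le_top
        (by rw [ecard_top, Fintype.card_fin]; omega)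
      have hv0 : v0 ∉ W := fun h' => hn (hdom v0 h' x' hne.symm)
      have hSv0 : S v0 = false := by
        rw [hmemW] at hv0
        simpa using hv0
      set S' : Fin N → Bool := fun x => decide (S x = true ∨ x = v0) with hS'
      have hS'iff : ∀ x, S' x = true ↔ S x = true ∨ x = v0 := fun x => by simp [hS']
      have hdomS : ∀ w, S w = true → X.Adj v0 w := by
        intro w hw
        refine (hdom w ((hmemW w).2 hw) v0 ?_).symm
        rintro rfl
        rw [hSv0] at hw
        exact absurd hw (by simp)
      have hcon := contract_ext (z := z) X S S' v0 hSv0 hS'iff hdomS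
      rw [← hW] at hcon
      have hle : ext X S ≤ ext X S' := by
        intro a b hab
        rcases a with _ | a <;> rcases b with _ | b
        · exact hab
        · exact (hS'iff b).2 (Or.inl hab)
        · exact (hS'iff a).2 (Or.inl hab)
        · exact hab
      have hS'card : (Finset.univ.filter (fun x => S' x = true)).card = W.card + 1 := by
        have : Finset.univ.filter (fun x => S' x = true) = insert v0 W := by
          ext x
          rw [Finset.mem_filter, Finset.mem_insert, hmemW]
          simp only [Finset.mem_univ, true_and, hS'iff]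
          exact or_comm
        rw [this, Finset.card_insert_of_notMem hv0]
      have hih := ih (by omega) ((ext X S').comap finSuccEquivLast)
        ((connected_comap _ _).2 (hC.mono hle)) (by
          rw [ecard_comap, ecard_ext, hS'card]
          omega)
      rw [Zg_comap, hcon] at hih
      -- the comparison graph
      set k := N - (h + 1) with hk
      have hkN : k < N := by omega
      have hNh : N - h = k + 1 := by omega
      rw [hNh] at hih
      set A : Finset (Fin N) := Finset.univ.filter (fun x => decide ((x : ℕ) < k) = true) with hA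
      have hmemA : ∀ x, x ∈ A ↔ (x : ℕ) < k := fun x => by simp [hA]
      have hAcard : A.card = k := by
        have h1 : A = Finset.Iio ⟨k, hkN⟩ := by
          ext x
          rw [hmemA, Finset.mem_Iio, Fin.lt_def]
        rw [h1, Fin.card_Iio]
      have hAW : A ⊆ W := by
        intro x hx
        rw [initial_segment W hinit x, hd]
        have := (hmemA x).1 hx
        omega
      have hcon2 := contract_ext (z := z) (⊤ : SimpleGraph (Fin N))
        (fun x => decide ((x : ℕ) < k)) (fun x => decide ((x : ℕ) < k + 1)) ⟨k, hkN⟩
        (by simp) (by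
          intro x
          simp only [decide_eq_true_eq]
          constructor
          · intro hx
            by_cases hxk : (x : ℕ) < k
            · exact Or.inl hxk
            · right
              exact Fin.ext (by simp; omega)
          · rintro (hx | hx)
            · omega
            · rw [hx]
              simp)
        (by
          intro w hw
          rw [SimpleGraph.top_adj]
          rintro rfl
          simp at hw)
      rw [← hA] at hcon2
      have hstar := star hz v0 A i X W (by rw [Fintype.card_fin]; exact hi) hv0 hdom hAW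
        (by rw [hAcard, hd])
      have hv0A : v0 ∉ A := fun h' => hv0 (hAW h')
      have hkA : (⟨k, hkN⟩ : Fin N) ∉ A := by
        rw [hmemA]
        simp
      rw [mu_top_swap z v0 ⟨k, hkN⟩ A hv0A hkA] at hstar
      have hzeta : zeta z N (k + 1) = zeta z N k + z * Z (mu z ⊤ (⟨k, hkN⟩ : Fin N) A) := hcon2
      have := mul_le_mul_of_nonneg_left hstar hz.le
      linarith

end Pool.Agent.MP_91840b_co
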