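import Mathlib
import Pool.Agent.Lib.MP_91840b_co.Dense
import Pool.Agent.Lib.MP_91840b_co.Defs

/-!
The main theorem.
-/

namespace Pool.Agent.MP_91840b_co

open Finset

universe u

theorem choose_two_succ (M : ℕ) : (M + 1).choose 2 = M.choose 2 + M := by
  rw [Nat.choose_succ_succ' M 1, Nat.choose_one_right, add_comm]

theorem choose_bound {s k : ℕ} (hks : k ≤ s) : ∀ M, s ≤ M →
    s.choose 2 + k + (M - s) ≤ (M + 1).choose 2 := by
  intro M hM
  induction M, hM using Nat.le_induction with
  | base =>
    have := choose_two_succ s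
    omega
  | succ M hM ih =>
    have := choose_two_succ (M + 1)
    omega

theorem main_fin {z : ℝ} (hz : 0 < z) : ∀ (N s k : ℕ), 1 ≤ k → k ≤ s → s ≤ N →
    ∀ G : SimpleGraph (Fin (N + 1)), G.Connected → ecard G = s.choose 2 + k + (N - s) →
      z ^ (N - s) * zeta z s k ≤ Zg z G := by
  classical
  intro N
  induction N with
  | zero =>
    intro s k hk hks hs
    omega
  | succ M ih =>
    intro s k hk hks hs G hG hc
    rcases Nat.lt_or_ge M s with hMs | hMs
    · have hsM : s = M + 1 := by omega
      subst hsM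
      have h1 := dense hz (M + 1) (M + 1 - k) (by omega) G hG (by
        have := choose_two_succ (M + 1)
        omega)
      have h2 : M + 1 - (M + 1 - k) = k := by omega
      rw [h2] at h1
      simpa using h1
    · obtain ⟨H, hHc, hHe, hHz, h0, hsh⟩ := exists_shifted hz.le G hG
      refine le_trans ?_ hHz
      obtain ⟨X, S, hX, hS, hext⟩ := split_last H
      have hZ : Zg z (ext X S) = Zg z H := by rw [hext, Zg_comap]
      have hE : ecard (ext X S) = ecard H := by rw [hext, ecard_comap]
      rw [← hZ]
      set W : Finset (Fin (M + 1)) := Finset.univ.filter (fun x => S x = true) with hW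
      have hdom : ∀ w, S w = true → ∀ x, x ≠ w → X.Adj w x := by
        intro w hw x hxw
        have h1 := (hS w).1 hw
        have h2 := hsh x.castSucc (Fin.last (M + 1)) (Fin.castSucc_lt_last x) w.castSucc
          (fun h => hxw (Fin.castSucc_injective _ h).symm) h1
        exact ((hX x w).2 h2).symm
      have hzero : S 0 = true := by
        rw [hS]
        refine (h0 (Fin.castSucc 0) (Fin.last (M + 1)) (by simp) ?_).symm
        exact (Fin.castSucc_lt_last (0 : Fin (M + 1))).ne'
      have hWpos : 0 < W.card := Finset.card_pos.2 ⟨0, by simp [hW, hzero]⟩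
      obtain ⟨d, hd⟩ : ∃ d, W.card = d + 1 := ⟨W.card - 1, by omega⟩
      have hec : ecard H = ecard X + W.card := by
        rw [← hE, ecard_ext]
      have hbound := choose_bound hks M hMs
      obtain ⟨Y, hXY, _, hY⟩ := exists_between X ⊤ le_top d (by
        rw [ecard_top, Fintype.card_fin]
        omega)
      have hstep := main_step hz X Y hXY S d hd hY hdom
      have hYc : Y.Connected := by
        rw [SimpleGraph.connected_iff_exists_forall_reachable]
        refine ⟨0, fun x => ?_⟩
        by_cases hx : x = 0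
        · rw [hx]
        · exact (hXY (hdom 0 hzero x hx)).reachable
      have h1 := ih s k hk hks hMs Y hYc (by omega)
      calc z ^ (M + 1 - s) * zeta z s k = z * (z ^ (M - s) * zeta z s k) := by
            rw [Nat.succ_sub hMs, pow_succ]
            ring
        _ ≤ z * Zg z Y := mul_le_mul_of_nonneg_left h1 hz.le
        _ ≤ _ := hstep

section LGraph

theorem lgraph_adj {n s k : ℕ} {a : ℕ → ℕ} {i j : Fin n} (hij : (i : ℕ) < j) :
    (lgraph n s k a).Adj i j ↔
      ((j : ℕ) < s ∨ ((j : ℕ) = s ∧ (i : ℕ) < k) ∨ (s < (j : ℕ) ∧ (i : ℕ) = a j)) := by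
  unfold lgraph
  rw [SimpleGraph.fromRel_adj]
  constructor
  · rintro ⟨_, h | h⟩
    · exact h.2
    · exact absurd h.1 (by omega)
  · intro h
    refine ⟨?_, Or.inl ⟨hij, h⟩⟩
    intro h'
    rw [h'] at hij
    omega

theorem lgraph_base (s k : ℕ) (a : ℕ → ℕ) :
    ext (⊤ : SimpleGraph (Fin s)) (fun x => decide ((x : ℕ) < k)) =
      (lgraph (s + 1) s k a).comap finSuccEquivLast.symm := by
  ext x y
  rcases x with _ | x <;> rcases y with _ | y
  · simp
  · rw [SimpleGraph.comap_adj, finSuccEquivLast_symm_none, finSuccEquivLast_symm_some,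
      SimpleGraph.adj_comm, SimpleGraph.adj_comm (lgraph (s + 1) s k a), lgraph_adj (by simp)]
    simp
  · rw [SimpleGraph.comap_adj, finSuccEquivLast_symm_none, finSuccEquivLast_symm_some,
      lgraph_adj (by simp)]
    simp
  · rw [SimpleGraph.comap_adj, finSuccEquivLast_symm_some, finSuccEquivLast_symm_some]
    rcases lt_trichotomy x y with h | h | h
    · rw [lgraph_adj (by simpa using h)]
      simp [h.ne]
    · rw [h]
      simp
    · rw [SimpleGraph.adj_comm, SimpleGraph.adj_comm (lgraph (s + 1) s k a),
        lgraph_adj (by simpa using h)]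
      simp [h.ne]

theorem lgraph_step {n s k : ℕ} {a : ℕ → ℕ} (hn : s < n) (han : a n < n) :
    ext (lgraph n s k a) (fun x => decide (x = ⟨a n, han⟩)) =
      (lgraph (n + 1) s k a).comap finSuccEquivLast.symm := by
  ext x y
  rcases x with _ | x <;> rcases y with _ | y
  · simp
  · rw [SimpleGraph.comap_adj, finSuccEquivLast_symm_none, finSuccEquivLast_symm_some,
      SimpleGraph.adj_comm, SimpleGraph.adj_comm (lgraph (n + 1) s k a), lgraph_adj (by simp)]
    simp only [ext_some_none, decide_eq_true_eq, Fin.val_last, Fin.val_castSucc, Fin.ext_iff]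
    constructor
    · intro h
      exact Or.inr (Or.inr ⟨hn, h⟩)
    · rintro (h | h | h)
      · omega
      · omega
      · exact h.2
  · rw [SimpleGraph.comap_adj, finSuccEquivLast_symm_none, finSuccEquivLast_symm_some,
      lgraph_adj (by simp)]
    simp only [ext_some_none, decide_eq_true_eq, Fin.val_last, Fin.val_castSucc, Fin.ext_iff]
    constructor
    · intro h
      exact Or.inr (Or.inr ⟨hn, h⟩)
    · rintro (h | h | h)
      · omega
      · omega
      · exact h.2
  · rw [SimpleGraph.comap_adj, finSuccEquivLast_symm_some, finSuccEquivLast_symm_some,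
      ext_some_some]
    rcases lt_trichotomy x y with h | h | h
    · rw [lgraph_adj (by simpa using h), lgraph_adj (by simpa using h)]
      simp
    · rw [h]
      simp
    · rw [SimpleGraph.adj_comm, SimpleGraph.adj_comm (lgraph (n + 1) s k a),
        lgraph_adj (by simpa using h), lgraph_adj (by simpa using h)]
      simp

theorem lgraph_Zg (z : ℝ) (s k : ℕ) (hks : k ≤ s) (a : ℕ → ℕ) : ∀ N, s ≤ N →
    (∀ j, s < j → j < N + 1 → a j < j) →
    Zg z (lgraph (N + 1) s k a) = z ^ (N - s) * zeta z s k ∧
      ecard (lgraph (N + 1) s k a) = s.choose 2 + k + (N - s) := by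
  classical
  intro N hN
  induction N, hN using Nat.le_induction with
  | base =>
    intro _
    constructor
    · rw [Nat.sub_self, pow_zero, one_mul, zeta, lgraph_base s k a, Zg_comap]
    · rw [← ecard_comap finSuccEquivLast.symm, ← lgraph_base s k a, ecard_ext, ecard_top,
        Fintype.card_fin, Nat.sub_self, add_zero]
      congr 1
      have h1 : (Finset.univ.filter (fun x : Fin s => decide ((x : ℕ) < k) = true)).card =
          (Finset.univ.filter (fun x : Fin s => (x : ℕ) < k)).card := by
        congr 1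
        ext x
        simp
      rw [h1, Fin.card_filter_val_lt]
      omega
  | succ N hN ih =>
    intro ha
    obtain ⟨h1, h2⟩ := ih (fun j hj hj' => ha j hj (by omega))
    have han : a (N + 1) < N + 1 := ha (N + 1) (by omega) (by omega)
    have hs := lgraph_step (k := k) (n := N + 1) (s := s) (a := a) (by omega) han
    constructor
    · rw [← Zg_comap z finSuccEquivLast.symm, ← hs, Nat.succ_sub hN, pow_succ, mul_assoc,
        mul_comm z, ← mul_assoc, ← h1, mul_comm]
      unfold Zg
      rw [add_pendant _ ⟨a (N + 1), han⟩]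
      · congr 1
        · exact gw_adj (G := ext _ _) (x := none) (y := some _) (by simp)
        · congr 1
          funext s'
          exact gw_ext_some _ _ s'
      · intro x hx
        exact gw_not_adj (G := ext _ _) (x := none) (y := some x) (by simpa using hx)
    · rw [← ecard_comap finSuccEquivLast.symm, ← hs, ecard_ext, h2]
      have h3 : (Finset.univ.filter (fun x : Fin (N + 1) =>
          decide (x = (⟨a (N + 1), han⟩ : Fin (N + 1))) = true)).card = 1 := by
        have : Finset.univ.filter (fun x : Fin (N + 1) =>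
          decide (x = (⟨a (N + 1), han⟩ : Fin (N + 1))) = true) = {⟨a (N + 1), han⟩} := by
          ext x
          simp
        rw [this, Finset.card_singleton]
      rw [h3]
      omega

theorem lgraph_connected {n s k : ℕ} (a : ℕ → ℕ) (hs : 1 ≤ s) (hn : s < n) (hk : 1 ≤ k)
    (ha : ∀ j, s < j → j < n → a j < j) : (lgraph n s k a).Connected := by
  rw [SimpleGraph.connected_iff_exists_forall_reachable]
  refine ⟨⟨0, by omega⟩, ?_⟩
  have key : ∀ j (hj : j < n), (lgraph n s k a).Reachable ⟨0, by omega⟩ ⟨j, hj⟩ := by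
    intro j
    induction j using Nat.strong_induction_on with
    | _ j ih =>
      intro hj
      rcases Nat.eq_zero_or_pos j with rfl | hj0
      · exact SimpleGraph.Reachable.refl _
      · rcases Nat.lt_or_ge s j with h | h
        · have haj := ha j h hj
          refine (ih (a j) haj (by omega)).trans (SimpleGraph.Adj.reachable ?_)
          rw [lgraph_adj (by simpa using haj)]
          exact Or.inr (Or.inr ⟨h, rfl⟩)
        · refine SimpleGraph.Adj.reachable ?_
          rw [lgraph_adj (by simpa using hj0)]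
          rcases lt_or_eq_of_le h with h | h
          · exact Or.inl h
          · exact Or.inr (Or.inl ⟨h, hk⟩)
  intro w
  exact key w.1 w.2

end LGraph

section Rel

variable {V : Type u} [Fintype V]

theorem wt_gw (z : ℝ) (G H : SimpleGraph V) (h : H ≤ G) : wt (gw z G) H = z ^ ecard H := by
  classical
  rw [← wt_const]
  unfold wt
  refine Finset.prod_congr rfl fun e he => ?_
  rw [Finset.mem_filter] at he
  unfold gw
  rw [if_pos (SimpleGraph.edgeSet_mono h he.2)]

theorem wt_gw_zero (z : ℝ) (G H : SimpleGraph V) (h : ¬ H ≤ G) : wt (gw z G) H = 0 := by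
  classical
  have : ∃ x y, H.Adj x y ∧ ¬ G.Adj x y := by
    by_contra hcon
    push Not at hcon
    exact h (fun x y hxy => hcon x y hxy)
  obtain ⟨x, y, h1, h2⟩ := this
  unfold wt
  refine Finset.prod_eq_zero (i := s(x, y)) ?_ (gw_not_adj h2)
  rw [Finset.mem_filter]
  exact ⟨Finset.mem_univ _, h1⟩

theorem rel_eq (G : SimpleGraph V) {p : ℝ} (hp : p < 1) :
    rel G p = (1 - p) ^ ecard G * Zg (p / (1 - p)) G := by
  classical
  unfold rel Zg Z
  rw [Finset.mul_sum]
  refine Finset.sum_congr rfl fun H _ => ?_
  by_cases hc : H.Connected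
  · by_cases hle : H ≤ G
    · rw [if_pos ⟨hle, hc⟩, if_pos hc, wt_gw _ _ _ hle]
      have hec : ecard H ≤ ecard G := ecard_mono hle
      show p ^ ecard H * (1 - p) ^ (ecard G - ecard H) = _
      have h1 : (1 - p) ≠ 0 := by linarith
      have h2 : (1 - p) ^ ecard G = (1 - p) ^ (ecard G - ecard H) * (1 - p) ^ ecard H := by
        rw [← pow_add, Nat.sub_add_cancel hec]
      rw [h2, div_pow]
      field_simp
    · rw [if_neg (fun h => hle h.1), if_pos hc, wt_gw_zero _ _ _ hle, mul_zero]
  · rw [if_neg (fun h => hc h.2), if_neg hc, mul_zero]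

theorem rel_continuous (G : SimpleGraph V) : Continuous (rel G) := by
  classical
  unfold rel
  refine continuous_finsetSum _ fun H _ => ?_
  split_ifs
  · fun_prop
  · exact continuous_const

end Rel

/-- `L_{n,m}` is a least reliable connected simple graph. -/
theorem least_reliable {V : Type u} [Fintype V] (n s k : ℕ) (hsn : s + 1 ≤ n)
    (hk : 1 ≤ k) (hks : k ≤ s) (a : ℕ → ℕ) (ha : ∀ j, s < j → j < n → a j < j)
    (G : SimpleGraph V) (hV : Fintype.card V = n) (hG : G.Connected)
    (hm : edgeCount G = s.choose 2 + k + (n - s - 1)) (p : ℝ) (hp0 : 0 ≤ p) (hp1 : p ≤ 1) :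
    rel (lgraph n s k a) p ≤ rel G p := by
  classical
  obtain ⟨N, rfl⟩ : ∃ N, n = N + 1 := ⟨n - 1, by omega⟩
  have hNs : N + 1 - s - 1 = N - s := by omega
  rw [hNs] at hm
  have key : ∀ q ∈ Set.Ioo (0 : ℝ) 1, rel (lgraph (N + 1) s k a) q ≤ rel G q := by
    intro q hq
    have hz : 0 < q / (1 - q) := div_pos hq.1 (by linarith [hq.2])
    obtain ⟨h1, h2⟩ := lgraph_Zg (q / (1 - q)) s k hks a N (by omega) ha
    rw [rel_eq _ hq.2, rel_eq _ hq.2, h1, h2]
    have e : Fin (N + 1) ≃ V := (Fintype.equivFinOfCardEq hV).symm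
    have hm' : ecard G = s.choose 2 + k + (N - s) := hm
    have h3 := main_fin hz N s k hk hks (by omega) (G.comap e) ((connected_comap e G).2 hG)
      (by rw [ecard_comap]; exact hm')
    rw [Zg_comap] at h3
    rw [hm']
    exact mul_le_mul_of_nonneg_left h3 (pow_nonneg (by linarith [hq.2]) _)
  have hclosed : IsClosed {q : ℝ | rel (lgraph (N + 1) s k a) q ≤ rel G q} :=
    isClosed_le (rel_continuous _) (rel_continuous _)
  have hsub : closure (Set.Ioo (0 : ℝ) 1) ⊆ {q : ℝ | rel (lgraph (N + 1) s k a) q ≤ rel G q} :=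
    closure_minimal key hclosed
  rw [closure_Ioo (by norm_num)] at hsub
  exact hsub ⟨hp0, hp1⟩

/-- Every `n ≥ 2` and `n - 1 ≤ m ≤ n.choose 2` have the form required in the definition of
`L_{n,m}`. -/
theorem exists_shape (n m : ℕ) (hn : 2 ≤ n) (h1 : n ≤ m + 1) (h2 : m ≤ n.choose 2) :
    ∃ s k, 1 ≤ s ∧ s + 1 ≤ n ∧ 1 ≤ k ∧ k ≤ s ∧ m = s.choose 2 + k + (n - s - 1) := by
  have key : ∀ t, 1 ≤ t → t + 1 ≤ n → m ≤ (t + 1).choose 2 + (n - t - 1) →
      ∃ s k, 1 ≤ s ∧ s + 1 ≤ n ∧ 1 ≤ k ∧ k ≤ s ∧ m = s.choose 2 + k + (n - s - 1) := by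
    intro t ht
    induction t, ht using Nat.le_induction with
    | base =>
      intro h3 h4
      refine ⟨1, 1, le_rfl, hn, le_rfl, le_rfl, ?_⟩
      have h5 : Nat.choose 1 2 = 0 := rfl
      have h6 : Nat.choose (1 + 1) 2 = 1 := rfl
      omega
    | succ t ht ih =>
      intro h3 h4
      have h5 := choose_two_succ (t + 1)
      by_cases h6 : m ≤ (t + 1).choose 2 + (n - t - 1)
      · exact ih (by omega) h6
      · refine ⟨t + 1, m - (t + 1).choose 2 - (n - (t + 1) - 1), by omega, h3, by omega, by omega,
          by omega⟩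
  refine key (n - 1) (by omega) (by omega) ?_
  rw [Nat.sub_add_cancel (by omega : 1 ≤ n)]
  omega

/-- The edge numbers of connected graphs. -/
theorem edgeCount_bounds {V : Type u} [Fintype V] (G : SimpleGraph V) (hG : G.Connected) :
    Fintype.card V ≤ edgeCount G + 1 ∧ edgeCount G ≤ (Fintype.card V).choose 2 := by
  classical
  have h := hG.card_vert_le_card_edgeSet_add_one
  constructor
  · rw [Nat.card_eq_fintype_card] at h
    exact h
  · have h2 := G.card_edgeFinset_le_card_choose_two
    unfold edgeCount
    rw [Set.ncard_eq_toFinset_card']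
    exact h2

end Pool.Agent.MP_91840b_co
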